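import Pool.Agent.Lib.MP_50ed31_mp.Upper

/-!
MP_50ed31_mp, one variable.  The dimension of the space of pairs of degrees at most `c`, `c` is at
most `2 (c+1)^2`.
-/

open PowerSeries Finset Module
open scoped Nat

namespace Pool.Agent.Lib.MP_50ed31_mp

variable {K : Type*} [Field K] [CharZero K]

/-- a pair is determined by few of its coefficients -/
theorem pair_eq_zero {w f : K⟦X⟧} (hw : w * dX K (dX K f) = 1) {c : ℕ} {g : ℕ → K⟦X⟧}
    (hg : IsPair (dX K) w f c c g)
    (h0 : ∀ j ≤ c, ∀ i < 4 * (c - j) + 2, coeff i (g j) = 0) : g = 0 := by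
  classical
  have hf : ∀ n : ℕ, (n ! : K) ≠ 0 := fun n => by exact_mod_cast Nat.factorial_ne_zero n
  have hw0 : coeff 0 w ≠ 0 := by
    intro h
    have h1 := congrArg (coeff 0) hw
    rw [coeff_zero_eq_constantCoeff_apply, map_mul, ← coeff_zero_eq_constantCoeff_apply,
      ← coeff_zero_eq_constantCoeff_apply, h, zero_mul] at h1
    simp at h1
  have hκ : -(coeff 0 w) / 2 ≠ 0 := div_ne_zero (neg_ne_zero.mpr hw0) two_ne_zero
  by_contra hne
  have hex : ∃ m, ∃ i j, i + 2 * j = m ∧ coeff i (g j) ≠ 0 := by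
    by_contra hno
    push Not at hno
    refine hne ?_
    funext j
    ext1 i
    rw [Pi.zero_apply, map_zero]
    exact hno _ i j rfl
  obtain ⟨i0, j0, hij, hc0⟩ := Nat.find_spec hex
  set m := Nat.find hex with hm
  have hmin : ∀ i j, i + 2 * j < m → coeff i (g j) = 0 := by
    intro i j hlt
    by_contra hcon
    exact Nat.find_min hex hlt ⟨i, j, rfl, hcon⟩
  -- the leading coefficients
  set q : ℕ → K := fun j => if 2 * j ≤ m then ((m - 2 * j)! : K) * coeff (m - 2 * j) (g j) else 0
    with hq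
  have hqc : ∀ j, c < j → q j = 0 := by
    intro j hj
    simp only [hq]
    split_ifs
    · rw [hg.1 j hj, map_zero, mul_zero]
    · rfl
  have hql : ∀ j, j < 2 * c + 1 - m / 2 → q j = 0 := by
    intro j hj
    by_cases hjc : c < j
    · exact hqc j hjc
    simp only [hq]
    split_ifs with h
    · rw [h0 j (by omega) _ (by omega), mul_zero]
    · rfl
  have hqs : ∀ l, c < l → l ≤ m / 2 →
      ∑ j ∈ range (l + 1), (-(coeff 0 w) / 2) ^ (l - j) / ((l - j)! : K) * q j = 0 := by
    intro l hl hlm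
    have h1 := congrArg (coeff (m - 2 * l)) (hg.2 l hl)
    rw [ft, map_sum, map_zero] at h1
    have h2 : ((m - 2 * l)! : K) * ∑ j ∈ range (l + 1),
        coeff (m - 2 * l) (A (dX K) w f (g j) (l - j)) = 0 := by rw [h1, mul_zero]
    rw [mul_sum] at h2
    rw [← h2]
    refine sum_congr rfl fun j hj => ?_
    rw [mem_range] at hj
    have h3 := A_lead w f (g j) (n := m - 2 * j) (k := l - j)
      (fun i hi => hmin i j (by omega)) (by omega)
    rw [show m - 2 * j - 2 * (l - j) = m - 2 * l by omega] at h3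
    rw [h3]
    simp only [hq]
    rw [if_pos (by omega)]
  have hq0 : q j0 = 0 := by
    by_cases hd : 2 * c + 1 - m / 2 ≤ c
    · have h1 := pade hκ (r := c - (2 * c + 1 - m / 2)) (q := fun j => q (j + (2 * c + 1 - m / 2)))
        (fun j hj => hqc _ (by omega)) ?_
      · by_cases hj : j0 < 2 * c + 1 - m / 2
        · exact hql j0 hj
        · have h2 := h1 (j0 - (2 * c + 1 - m / 2))
          rwa [show j0 - (2 * c + 1 - m / 2) + (2 * c + 1 - m / 2) = j0 by omega] at h2
      · intro l hl1 hl2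
        have h2 := hqs (l + (2 * c + 1 - m / 2)) (by omega) (by omega)
        rw [show l + (2 * c + 1 - m / 2) + 1 = (2 * c + 1 - m / 2) + (l + 1) by ring,
          sum_range_add] at h2
        rw [sum_eq_zero (s := range (2 * c + 1 - m / 2)) fun j hj => by
          rw [hql j (mem_range.mp hj), mul_zero], zero_add] at h2
        rw [← h2]
        refine sum_congr rfl fun j hj => ?_
        rw [mem_range] at hj
        rw [show l + (2 * c + 1 - m / 2) - (2 * c + 1 - m / 2 + j) = l - j by omega,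
          add_comm j]
    · by_cases hj : c < j0
      · exact hqc j0 hj
      · exact hql j0 (by omega)
  simp only [hq] at hq0
  rw [if_pos (by omega), show m - 2 * j0 = i0 by omega] at hq0
  exact hc0 ((mul_eq_zero.mp hq0).resolve_left (hf _))

/-- the upper bound -/
theorem finrank_upper {w f : K⟦X⟧} (hw : w * dX K (dX K f) = 1) (c : ℕ) :
    FiniteDimensional K (Pr w f c c) ∧ finrank K (Pr w f c c) ≤ 2 * (c + 1) ^ 2 := by
  let ι := Σ j : Fin (c + 1), Fin (4 * (c - j) + 2)
  let ev : Pr w f c c →ₗ[K] (ι → K) :=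
    { toFun := fun g m => coeff (m.2 : ℕ) ((g : ℕ → K⟦X⟧) m.1)
      map_add' := fun p q => by funext m; simp
      map_smul' := fun c p => by funext m; simp }
  have hinj : Function.Injective ev := by
    rw [← LinearMap.ker_eq_bot, LinearMap.ker_eq_bot']
    rintro ⟨g, hg⟩ h
    refine Subtype.ext (pair_eq_zero hw hg fun j hj i hi => ?_)
    exact congrFun h ⟨⟨j, by omega⟩, ⟨i, hi⟩⟩
  refine ⟨FiniteDimensional.of_injective ev hinj, ?_⟩
  have h1 := LinearMap.finrank_le_finrank_of_injective hinj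
  rw [Module.finrank_fintype_fun_eq_card] at h1
  have h2 : Fintype.card ι = 2 * (c + 1) ^ 2 := by
    rw [Fintype.card_sigma]
    simp only [Fintype.card_fin]
    rw [Fin.sum_univ_eq_sum_range (fun j => 4 * (c - j) + 2) (c + 1)]
    have h3 := sum_range_reflect (fun j => 4 * j + 2) (c + 1)
    simp only [Nat.add_sub_cancel] at h3
    have h4 : ∀ c : ℕ, ∑ j ∈ range (c + 1), (4 * j + 2) = 2 * (c + 1) ^ 2 := by
      intro c
      induction c with
      | zero => simp
      | succ c ih => rw [sum_range_succ, ih]; ring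
    rw [← h4 c, ← h3]
  omega

/-- If there are pairs, then one of two sextuples is linearly dependent. -/
theorem sextuples {w f : K⟦X⟧} (hw : w * dX K (dX K f) = 1) {a b : ℕ} {g : ℕ → K⟦X⟧}
    (hg : IsPair (dX K) w f a b g) (hg0 : ∃ j, g j ≠ 0) {s s' : Finset ℕ}
    (hs : s.card = 6) (hs' : s'.card = 6) (hsG : ∀ m ∈ s, m ∈ Ords (Gen X f 2))
    (hsG' : ∀ m ∈ s', m ∈ Ords (Gen (dX K f) (f - X * dX K f) 2)) : False := by
  -- reduce to a pair with `g 0 ≠ 0`
  have key : ∀ c : ℕ, ∀ g : ℕ → K⟦X⟧, IsPair (dX K) w f c c g → (∃ j, g j ≠ 0) →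
      ∃ c', ∃ p ∈ Rch w f c' c', p ≠ 0 := by
    intro c
    induction c with
    | zero =>
      rintro g hg ⟨j, hj⟩
      rcases j with _ | j
      · exact ⟨0, g 0, ⟨g, hg, rfl⟩, hj⟩
      · exact absurd (hg.1 (j + 1) (by omega)) hj
    | succ c ih =>
      rintro g hg ⟨j, hj⟩
      by_cases h0 : g 0 = 0
      · refine ih _ (hg.shift h0) ?_
        rcases j with _ | j
        · exact absurd h0 hj
        · exact ⟨j, hj⟩
      · exact ⟨c + 1, g 0, ⟨g, hg, rfl⟩, h0⟩
  obtain ⟨c, hc⟩ := key (max a b) g (hg.mono (le_max_left _ _) (le_max_right _ _)) hg0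
  exact no_growth hw hs hs' hsG hsG' hc (finrank_upper hw)

end Pool.Agent.Lib.MP_50ed31_mp
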