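import Pool.Agent.Lib.MP_50ed31_mp.Bound

/-!
MP_50ed31_mp, one variable.  Conics: the dual conic, and the exactness of the transforms.
-/

open PowerSeries Finset Module
open scoped Nat

namespace Pool.Agent.Lib.MP_50ed31_mp

/-! ## On a conic `A_1 [f,g] = 0` implies `A_k [f,g] = 0` -/

section step

variable {R : Type*} [CommRing R] [Algebra ℚ R] {δ : Derivation ℚ R R} {w f x : R}

theorem conic_step (hx : δ x = 1) (hw : w * δ (δ f) = 1) {a0 a1 a2 a3 a4 a5 : R}
    (h0 : δ a0 = 0) (h1 : δ a1 = 0) (h2 : δ a2 = 0) (h3 : δ a3 = 0) (h4 : δ a4 = 0)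
    (h5 : δ a5 = 0)
    (hc : a0 + a1 * x + a2 * x ^ 2 + a3 * f + a4 * (x * f) + a5 * f ^ 2 = 0) (g : R) (n : ℕ)
    (hn : A δ w f g n = 0) :
    ((n : R) + 1) * ((a3 + a4 * x + 2 * a5 * f) * A δ w f g (n + 1)) = 0 := by
  -- derivatives of the relation
  have e1 : a1 + 2 * a2 * x + a3 * δ f + a4 * (f + x * δ f) + 2 * a5 * (f * δ f) = 0 := by
    have h := congrArg δ hc
    simp only [map_add, Derivation.leibniz, Derivation.leibniz_pow, smul_eq_mul, nsmul_eq_mul, h0,
      h1, h2, h3, h4, h5, hx, map_zero] at h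
    push_cast at h
    linear_combination h
  have e2 : 2 * a2 + a4 * (2 * δ f) + 2 * a5 * (δ f) ^ 2 + (a3 + a4 * x + 2 * a5 * f) * δ (δ f) = 0 := by
    have h := congrArg δ e1
    have h22 : δ (2 : R) = 0 := by
      have := Derivation.map_natCast δ 2
      exact_mod_cast this
    simp only [map_add, Derivation.leibniz, smul_eq_mul, h1, h2, h3, h4, h5, h22, hx,
      map_zero] at h
    linear_combination h
  have hD0 : Dy δ w f (0 : R) = 0 := by simp [Dy]
  have hx1 : A δ w f (x * g) (n + 1) = x * A δ w f g (n + 1) := by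
    rw [A_x hx hw, hn, hD0, add_zero]
  have hx2 : A δ w f (x * g) (n + 2) = x * A δ w f g (n + 2) + Dy δ w f (A δ w f g (n + 1)) :=
    A_x hx hw g (n + 1)
  have hf1 : A δ w f (f * g) (n + 1) = f * A δ w f g (n + 1) := by
    rw [A_f hw, hn, hD0]; ring
  have hf2 : A δ w f (f * g) (n + 2) = f * A δ w f g (n + 2) + δ f * Dy δ w f (A δ w f g (n + 1)) -
      (((n + 1 : ℕ) : R) + cq R (1 / 2)) * A δ w f g (n + 1) := A_f hw g (n + 1)
  have hxx := A_x hx hw (x * g) (n + 1)
  have hxf := A_x hx hw (f * g) (n + 1)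
  have hff := A_f hw (f * g) (n + 1)
  rw [show n + 1 + 1 = n + 2 by ring, hx2, hx1, Dy_mul, hx] at hxx
  rw [show n + 1 + 1 = n + 2 by ring, hf2, hf1, Dy_mul] at hxf
  rw [show n + 1 + 1 = n + 2 by ring, hf2, hf1, Dy_mul] at hff
  have key : A δ w f (a0 * g + (a1 * (x * g) + (a2 * (x * (x * g)) + (a3 * (f * g) +
      (a4 * (x * (f * g)) + a5 * (f * (f * g))))))) (n + 2) = 0 := by
    have h : a0 * g + (a1 * (x * g) + (a2 * (x * (x * g)) + (a3 * (f * g) +
      (a4 * (x * (f * g)) + a5 * (f * (f * g)))))) = 0 := by linear_combination g * hc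
    rw [h, A_map_zero]
  rw [A_add, A_add, A_add, A_add, A_add, A_const h0, A_const h1, A_const h2, A_const h3,
    A_const h4, A_const h5, hx2, hf2, hxx, hxf, hff] at key
  push_cast at key
  have ht := half_two (R := R)
  have hwn : w * (2 * a2 + a4 * (2 * δ f) + 2 * a5 * (δ f) ^ 2) = -(a3 + a4 * x + 2 * a5 * f) := by
    linear_combination w * e2 - (a3 + a4 * x + 2 * a5 * f) * hw
  linear_combination (-1 : R) * key + A δ w f g (n + 2) * hc + Dy δ w f (A δ w f g (n + 1)) * e1 -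
    A δ w f g (n + 1) * cq R (1 / 2) * hwn +
    A δ w f g (n + 1) * w * (a2 + a4 * δ f + a5 * (δ f) ^ 2) * ht

end step

end Pool.Agent.Lib.MP_50ed31_mp
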