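import Pool.Agent.Lib.MP_50ed31_mp.Final

/-!
MP_50ed31_mp, one variable.  Convergent power series.
-/

open PowerSeries Finset Module
open scoped Nat

namespace Pool.Agent.Lib.MP_50ed31_mp

variable {K : Type*} [RCLike K]

theorem Conv.exists_one_le {p : K⟦X⟧} (h : Conv p) :
    ∃ B : ℝ, 1 ≤ B ∧ ∀ n, ‖coeff n p‖ ≤ B ^ (n + 1) := by
  obtain ⟨B, hB⟩ := h
  have hB0 : 0 ≤ B := by
    have := (norm_nonneg _).trans (hB 0)
    simpa using this
  refine ⟨B + 1, by linarith, fun n => (hB n).trans ?_⟩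
  exact pow_le_pow_left₀ hB0 (by linarith) _

theorem succ_le_two_pow (n : ℕ) : ((n : ℝ) + 1) ≤ 2 ^ n := by
  have h := Nat.lt_two_pow_self (n := n)
  have h2 : n + 1 ≤ 2 ^ n := h
  exact_mod_cast h2

theorem bound_aux {B : ℝ} (hB : 1 ≤ B) (n : ℕ) : ((n : ℝ) + 1) * B ^ (n + 2) ≤ (2 * B ^ 2) ^ (n + 1) := by
  have h1 : B ^ (n + 2) ≤ (B ^ 2) ^ (n + 1) := by
    rw [← pow_mul]
    exact pow_le_pow_right₀ hB (by omega)
  have h2 : ((n : ℝ) + 1) ≤ 2 ^ (n + 1) := by
    have := succ_le_two_pow n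
    have h3 : (2 : ℝ) ^ n ≤ 2 ^ (n + 1) := pow_le_pow_right₀ (by norm_num) (by omega)
    linarith
  rw [mul_pow]
  have : 0 ≤ B ^ (n + 2) := by positivity
  exact mul_le_mul h2 h1 this (by positivity)

theorem Conv.add {p q : K⟦X⟧} (hp : Conv p) (hq : Conv q) : Conv (p + q) := by
  obtain ⟨A, hA, hA2⟩ := hp.exists_one_le
  obtain ⟨B, hB, hB2⟩ := hq.exists_one_le
  refine ⟨2 * (A + B), fun n => ?_⟩
  rw [map_add]
  have h1 : A ^ (n + 1) ≤ (A + B) ^ (n + 1) := pow_le_pow_left₀ (by linarith) (by linarith) _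
  have h2 : B ^ (n + 1) ≤ (A + B) ^ (n + 1) := pow_le_pow_left₀ (by linarith) (by linarith) _
  have h3 : (2 : ℝ) ≤ 2 ^ (n + 1) := by
    calc (2 : ℝ) = 2 ^ 1 := by norm_num
      _ ≤ _ := pow_le_pow_right₀ (by norm_num) (by omega)
  have h4 : 0 ≤ (A + B) ^ (n + 1) := by positivity
  calc ‖coeff n p + coeff n q‖ ≤ A ^ (n + 1) + B ^ (n + 1) :=
        (norm_add_le _ _).trans (add_le_add (hA2 n) (hB2 n))
    _ ≤ 2 * (A + B) ^ (n + 1) := by linarith
    _ ≤ (2 * (A + B)) ^ (n + 1) := by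
        rw [mul_pow]
        exact mul_le_mul_of_nonneg_right h3 h4

theorem Conv.mul {p q : K⟦X⟧} (hp : Conv p) (hq : Conv q) : Conv (p * q) := by
  obtain ⟨A, hA, hA2⟩ := hp.exists_one_le
  obtain ⟨B, hB, hB2⟩ := hq.exists_one_le
  refine ⟨2 * (A + B) ^ 2, fun n => ?_⟩
  rw [coeff_mul]
  refine le_trans ?_ (bound_aux (by linarith : 1 ≤ A + B) n)
  refine (norm_sum_le _ _).trans ?_
  have h : ∀ x ∈ Finset.HasAntidiagonal.antidiagonal n, ‖coeff x.1 p * coeff x.2 q‖ ≤
      (A + B) ^ (n + 2) := by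
    intro x hx
    rw [Finset.HasAntidiagonal.mem_antidiagonal] at hx
    rw [norm_mul]
    calc ‖coeff x.1 p‖ * ‖coeff x.2 q‖ ≤ A ^ (x.1 + 1) * B ^ (x.2 + 1) :=
          mul_le_mul (hA2 _) (hB2 _) (norm_nonneg _) (by positivity)
      _ ≤ (A + B) ^ (x.1 + 1) * (A + B) ^ (x.2 + 1) :=
          mul_le_mul (pow_le_pow_left₀ (by linarith) (by linarith) _)
            (pow_le_pow_left₀ (by linarith) (by linarith) _) (by positivity) (by positivity)
      _ = (A + B) ^ (n + 2) := by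
          rw [← pow_add]
          congr 1
          omega
  refine (sum_le_card_nsmul _ _ _ h).trans ?_
  rw [Finset.Nat.card_antidiagonal, nsmul_eq_mul]
  push_cast
  exact le_rfl

theorem Conv.C (c : K) : Conv (PowerSeries.C c : K⟦X⟧) := by
  refine ⟨‖c‖ + 1, fun n => ?_⟩
  rw [coeff_C]
  split_ifs with h
  · subst h
    simp
  · rw [norm_zero]
    positivity

theorem Conv.neg {p : K⟦X⟧} (hp : Conv p) : Conv (-p) := by
  obtain ⟨A, hA⟩ := hp
  exact ⟨A, fun n => by rw [map_neg, norm_neg]; exact hA n⟩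

theorem Conv.deriv {p : K⟦X⟧} (hp : Conv p) : Conv (dX K p) := by
  obtain ⟨A, hA, hA2⟩ := hp.exists_one_le
  refine ⟨2 * A ^ 2, fun n => ?_⟩
  rw [dX_apply, coeff_derivative, norm_mul]
  have h1 : ‖((n : K) + 1)‖ = (n : ℝ) + 1 := by
    have : ((n : K) + 1) = ((n + 1 : ℕ) : K) := by push_cast; ring
    rw [this, RCLike.norm_natCast]
    push_cast
    ring
  rw [h1, mul_comm]
  refine le_trans ?_ (bound_aux hA n)
  exact mul_le_mul_of_nonneg_left (hA2 (n + 1)) (by positivity)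

/-- the ring of convergent power series -/
def cvRing (K : Type*) [RCLike K] : Subring K⟦X⟧ where
  carrier := {p | Conv p}
  mul_mem' := fun hp hq => hp.mul hq
  one_mem' := by
    have := Conv.C (1 : K)
    rwa [map_one] at this
  add_mem' := fun hp hq => hp.add hq
  zero_mem' := by
    have := Conv.C (0 : K)
    rwa [map_zero] at this
  neg_mem' := fun hp => hp.neg

theorem mem_cvRing {p : K⟦X⟧} : p ∈ cvRing K ↔ Conv p := Iff.rfl

/-- geometric sums -/
theorem geom_aux {B D : ℝ} (hB : 0 ≤ B) (hD : 2 * B ≤ D) (n : ℕ) :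
    ∑ i ∈ range (n + 1), B ^ (n - i) * D ^ i ≤ 2 * D ^ n := by
  have hD0 : 0 ≤ D := by linarith
  induction n with
  | zero => simp
  | succ n ih =>
    rw [sum_range_succ, Nat.sub_self, pow_zero, one_mul]
    have h1 : ∑ i ∈ range (n + 1), B ^ (n + 1 - i) * D ^ i =
        B * ∑ i ∈ range (n + 1), B ^ (n - i) * D ^ i := by
      rw [mul_sum]
      refine sum_congr rfl fun i hi => ?_
      rw [mem_range] at hi
      rw [show n + 1 - i = (n - i) + 1 by omega, pow_succ]
      ring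
    rw [h1]
    have h2 : B * ∑ i ∈ range (n + 1), B ^ (n - i) * D ^ i ≤ B * (2 * D ^ n) :=
      mul_le_mul_of_nonneg_left ih hB
    have h3 : B * (2 * D ^ n) ≤ D ^ (n + 1) := by
      have : 0 ≤ D ^ n := by positivity
      rw [pow_succ]
      nlinarith
    linarith

theorem Conv.inv {w u : K⟦X⟧} (hu : Conv u) (hw : w * u = 1) : Conv w := by
  obtain ⟨B, hB, hB2⟩ := hu.exists_one_le
  have h0 : coeff 0 w * coeff 0 u = 1 := by
    have := congrArg (coeff 0) hw
    rw [coeff_zero_eq_constantCoeff_apply, map_mul] at this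
    simpa using this
  have hu0 : coeff 0 u ≠ 0 := right_ne_zero_of_mul_eq_one h0
  set β := ‖coeff 0 w‖ with hβ
  have hβ0 : 0 ≤ β := norm_nonneg _
  set D : ℝ := 2 * B + 2 * β * B ^ 2 + β + 1 with hD
  have hB0 : 0 ≤ B := by linarith
  have hD0 : 1 ≤ D := by
    have : 0 ≤ 2 * β * B ^ 2 := by positivity
    rw [hD]; linarith
  refine ⟨D, fun n => ?_⟩
  induction n using Nat.strong_induction_on with
  | _ n ih =>
    rcases n with _ | n
    · rw [zero_add, pow_one]
      have : 0 ≤ 2 * β * B ^ 2 := by positivity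
      rw [hD]; linarith
    · have h1 : coeff (n + 1) w = -(coeff 0 w) * ∑ i ∈ range (n + 1), coeff i w * coeff (n + 1 - i) u := by
        have h2 := congrArg (coeff (n + 1)) hw
        rw [coeff_mul, Finset.Nat.sum_antidiagonal_eq_sum_range_succ_mk, sum_range_succ,
          Nat.sub_self, coeff_one, if_neg (by omega)] at h2
        linear_combination (-(coeff (n + 1) w)) * h0 + coeff 0 w * h2
      rw [h1, norm_mul, norm_neg]
      have h3 : ‖∑ i ∈ range (n + 1), coeff i w * coeff (n + 1 - i) u‖ ≤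
          ∑ i ∈ range (n + 1), D * B ^ 2 * (B ^ (n - i) * D ^ i) := by
        refine (norm_sum_le _ _).trans (sum_le_sum fun i hi => ?_)
        rw [mem_range] at hi
        rw [norm_mul]
        calc ‖coeff i w‖ * ‖coeff (n + 1 - i) u‖ ≤ D ^ (i + 1) * B ^ (n + 1 - i + 1) :=
              mul_le_mul (ih i (by omega)) (hB2 _) (norm_nonneg _) (by positivity)
          _ = _ := by
              rw [show n + 1 - i + 1 = (n - i) + 2 by omega]
              ring
      rw [← mul_sum] at h3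
      have h4 := geom_aux hB0 (D := D) (by
        have : 0 ≤ 2 * β * B ^ 2 := by positivity
        rw [hD]; linarith) n
      have h5 : ‖∑ i ∈ range (n + 1), coeff i w * coeff (n + 1 - i) u‖ ≤
          D * B ^ 2 * (2 * D ^ n) := h3.trans (mul_le_mul_of_nonneg_left h4 (by positivity))
      calc β * ‖∑ i ∈ range (n + 1), coeff i w * coeff (n + 1 - i) u‖
          ≤ β * (D * B ^ 2 * (2 * D ^ n)) := mul_le_mul_of_nonneg_left h5 hβ0
        _ = (2 * β * B ^ 2) * D ^ (n + 1) := by ring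
        _ ≤ D * D ^ (n + 1) := by
            refine mul_le_mul_of_nonneg_right ?_ (by positivity)
            rw [hD]; linarith
        _ = D ^ (n + 1 + 1) := by ring

end Pool.Agent.Lib.MP_50ed31_mp
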