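import Pool.Agent.Lib.MP_50ed31_mp.Conv

/-!
MP_50ed31_mp, one variable.  Convergence of the admissible `g`.
-/

open PowerSeries Finset Module
open scoped Nat LaurentSeries

namespace Pool.Agent.Lib.MP_50ed31_mp

variable {K : Type*} [RCLike K]

/-- formal solutions of linear equations with convergent coefficients converge -/
theorem ode_conv {P Q g : K⟦X⟧} (hP : Conv P) (hQ : Conv Q)
    (h : dX K (dX K g) = P * dX K g + Q * g) : Conv g := by
  obtain ⟨B1, hB1, hP⟩ := hP.exists_one_le
  obtain ⟨B2, hB2, hQ⟩ := hQ.exists_one_le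
  set B := B1 + B2 with hB
  have hBP : ∀ n, ‖coeff n P‖ ≤ B ^ (n + 1) := fun n =>
    (hP n).trans (pow_le_pow_left₀ (by linarith) (by linarith) _)
  have hBQ : ∀ n, ‖coeff n Q‖ ≤ B ^ (n + 1) := fun n =>
    (hQ n).trans (pow_le_pow_left₀ (by linarith) (by linarith) _)
  have hB0 : 0 ≤ B := by linarith
  set D : ℝ := 2 * B + ‖coeff 0 g‖ + ‖coeff 1 g‖ + 1 with hD
  have n0 := norm_nonneg (coeff 0 g)
  have n1 := norm_nonneg (coeff 1 g)
  have hD1 : 1 ≤ D := by rw [hD]; linarith
  have hDB : 2 * B ≤ D := by rw [hD]; linarith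
  refine ⟨D, fun n => ?_⟩
  induction n using Nat.strong_induction_on with
  | _ n ih =>
    rcases n with _ | _ | n
    · rw [zero_add, pow_one, hD]; linarith
    · refine le_trans ?_ (pow_le_pow_right₀ hD1 (by omega : 1 ≤ 0 + 1 + 1))
      rw [pow_one, hD]; linarith
    · have hrec : coeff (n + 2) g * (((n : K) + 1 + 1) * ((n : K) + 1)) =
          ∑ i ∈ range (n + 1), (coeff (n - i) P * (coeff (i + 1) g * ((i : K) + 1)) +
            coeff (n - i) Q * coeff i g) := by
        have h1 := congrArg (coeff n) h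
        rw [dX_apply, dX_apply, coeff_derivative, coeff_derivative, map_add, mul_comm P,
          mul_comm Q, coeff_mul, coeff_mul, Finset.Nat.sum_antidiagonal_eq_sum_range_succ_mk,
          Finset.Nat.sum_antidiagonal_eq_sum_range_succ_mk, ← sum_add_distrib] at h1
        rw [show n + 1 + 1 = n + 2 by ring] at h1
        push_cast at h1
        rw [← mul_assoc, h1]
        refine sum_congr rfl fun i _ => ?_
        rw [coeff_derivative]
        ring
      have hc : ∀ m : ℕ, ‖((m : K) + 1)‖ = (m : ℝ) + 1 := by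
        intro m
        have : ((m : K) + 1) = ((m + 1 : ℕ) : K) := by push_cast; ring
        rw [this, RCLike.norm_natCast]
        push_cast
        ring
      have hbound : ‖∑ i ∈ range (n + 1), (coeff (n - i) P * (coeff (i + 1) g * ((i : K) + 1)) +
            coeff (n - i) Q * coeff i g)‖ ≤
          ∑ i ∈ range (n + 1), ((n : ℝ) + 2) * B * D ^ 2 * (B ^ (n - i) * D ^ i) := by
        refine (norm_sum_le _ _).trans (sum_le_sum fun i hi => ?_)
        rw [mem_range] at hi
        have e1 : ‖coeff (n - i) P * (coeff (i + 1) g * ((i : K) + 1))‖ ≤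
            B ^ (n - i + 1) * (D ^ (i + 2) * ((i : ℝ) + 1)) := by
          rw [norm_mul, norm_mul, hc]
          exact mul_le_mul (hBP _) (mul_le_mul_of_nonneg_right (ih (i + 1) (by omega))
            (by positivity)) (by positivity) (by positivity)
        have e2 : ‖coeff (n - i) Q * coeff i g‖ ≤ B ^ (n - i + 1) * D ^ (i + 1) := by
          rw [norm_mul]
          exact mul_le_mul (hBQ _) (ih i (by omega)) (norm_nonneg _) (by positivity)
        have e3 : D ^ (i + 1) ≤ D ^ (i + 2) := pow_le_pow_right₀ hD1 (by omega)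
        have hi' : (i : ℝ) ≤ n := by exact_mod_cast (by omega : i ≤ n)
        have e4 : 0 ≤ B ^ (n - i + 1) := by positivity
        have e5 : 0 ≤ D ^ (i + 2) := by positivity
        calc ‖coeff (n - i) P * (coeff (i + 1) g * ((i : K) + 1)) + coeff (n - i) Q * coeff i g‖
            ≤ B ^ (n - i + 1) * (D ^ (i + 2) * ((i : ℝ) + 1)) + B ^ (n - i + 1) * D ^ (i + 1) :=
              (norm_add_le _ _).trans (add_le_add e1 e2)
          _ ≤ B ^ (n - i + 1) * (D ^ (i + 2) * ((i : ℝ) + 1)) + B ^ (n - i + 1) * D ^ (i + 2) := by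
              gcongr
          _ = B ^ (n - i + 1) * D ^ (i + 2) * ((i : ℝ) + 2) := by ring
          _ ≤ B ^ (n - i + 1) * D ^ (i + 2) * ((n : ℝ) + 2) := by gcongr
          _ = _ := by ring
      rw [← mul_sum] at hbound
      have hg := geom_aux hB0 hDB n
      have hfin : ‖coeff (n + 2) g‖ * (((n : ℝ) + 2) * ((n : ℝ) + 1)) ≤
          ((n : ℝ) + 2) * B * D ^ 2 * (2 * D ^ n) := by
        have h2 : ‖coeff (n + 2) g * (((n : K) + 1 + 1) * ((n : K) + 1))‖ =
            ‖coeff (n + 2) g‖ * (((n : ℝ) + 2) * ((n : ℝ) + 1)) := by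
          rw [norm_mul, norm_mul, hc n]
          have := hc (n + 1)
          push_cast at this
          rw [this]
          ring
        rw [← h2, hrec]
        exact hbound.trans (mul_le_mul_of_nonneg_left hg (by positivity))
      have hpos : (0 : ℝ) < (n : ℝ) + 2 := by positivity
      have h3 : ‖coeff (n + 2) g‖ * ((n : ℝ) + 1) ≤ 2 * B * D ^ (n + 2) := by
        have h4 : ((n : ℝ) + 2) * (‖coeff (n + 2) g‖ * ((n : ℝ) + 1)) ≤
            ((n : ℝ) + 2) * (2 * B * D ^ (n + 2)) := by
          calc _ = ‖coeff (n + 2) g‖ * (((n : ℝ) + 2) * ((n : ℝ) + 1)) := by ring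
            _ ≤ _ := hfin
            _ = _ := by ring
        exact le_of_mul_le_mul_left h4 hpos
      have h5 : ‖coeff (n + 2) g‖ ≤ ‖coeff (n + 2) g‖ * ((n : ℝ) + 1) := by
        have : (0 : ℝ) ≤ n := Nat.cast_nonneg n
        nlinarith [norm_nonneg (coeff (n + 2) g)]
      have h6 : 2 * B * D ^ (n + 2) ≤ D ^ (n + 2 + 1) := by
        rw [pow_succ D (n + 2), mul_comm]
        exact mul_le_mul_of_nonneg_left hDB (by positivity)
      exact h5.trans (h3.trans h6)

theorem cq_conv (q : ℚ) : cq K⟦X⟧ q ∈ cvRing K := by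
  rw [cq_eq_C]
  exact Conv.C _

theorem iter_conv {p : K⟦X⟧} (hp : p ∈ cvRing K) (m : ℕ) : (⇑(dX K))^[m] p ∈ cvRing K := by
  induction m generalizing p with
  | zero => exact hp
  | succ m ih => exact ih (Conv.deriv hp)

theorem vertex_conv {p : K⟦X⟧} (hp : p ∈ cvRing K) (m : ℕ) :
    coeff m (vertex (dX K) p) ∈ cvRing K := by
  rw [vertex, coeff_mk]
  split_ifs
  · exact zero_mem _
  · exact mul_mem (cq_conv _) (iter_conv hp m)

theorem gauss_conv {w : K⟦X⟧} (hw : w ∈ cvRing K) (r : ℕ) : gauss w r ∈ cvRing K :=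
  mul_mem (cq_conv _) (pow_mem hw r)

theorem admissible_conv {w f g : K⟦X⟧} (hf : Conv f) (hw : w * dX K (dX K f) = 1)
    (hg : A (dX K) w f g 1 = 0) : Conv g := by
  have hf' : f ∈ cvRing K := hf
  have hf2 : dX K (dX K f) ∈ cvRing K := Conv.deriv (Conv.deriv hf)
  have hwc : w ∈ cvRing K := Conv.inv hf2 hw
  have h2 : (2 : K⟦X⟧) ∈ cvRing K := by
    have := natCast_mem (cvRing K) 2
    exact_mod_cast this
  refine ode_conv (P := 2 * dX K (dX K f) * (gauss w 2 * coeff 3 (vertex (dX K) f)))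
    (Q := 2 * dX K (dX K f) * (gauss w 2 * coeff 4 (vertex (dX K) f) +
      cq K⟦X⟧ (1 / 2) * (gauss w 3 * coeff 6 (vertex (dX K) f ^ 2)))) ?_ ?_ ?_
  · exact mul_mem (mul_mem h2 hf2) (mul_mem (gauss_conv hwc 2) (vertex_conv hf' 3))
  · refine mul_mem (mul_mem h2 hf2) (add_mem (mul_mem (gauss_conv hwc 2) (vertex_conv hf' 4))
      (mul_mem (cq_conv _) (mul_mem (gauss_conv hwc 3) ?_)))
    rw [pow_two, coeff_mul]
    exact sum_mem fun x _ => mul_mem (vertex_conv hf' _) (vertex_conv hf' _)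
  · rw [A_one] at hg
    have ht := half_two (R := K⟦X⟧)
    set p := gauss w 2 * coeff 3 (vertex (dX K) f)
    set q := (gauss w 2 * coeff 4 (vertex (dX K) f) +
        cq K⟦X⟧ (1 / 2) * (gauss w 3 * coeff 6 (vertex (dX K) f ^ 2)))
    linear_combination (-2 * dX K (dX K f)) * hg - dX K (dX K g) * (w * dX K (dX K f) * ht + hw)

end Pool.Agent.Lib.MP_50ed31_mp
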