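import Mathlib

/-!
MP_50ed31_mp, one variable.  Definitions.
-/

open PowerSeries Finset
open scoped Nat LaurentSeries

namespace Pool.Agent.Lib.MP_50ed31_mp

section wick

variable {R : Type*} [CommRing R] [Algebra ℚ R] (δ : Derivation ℚ R R)

/-- the rational number `q` as an element of `R` -/
abbrev cq (R : Type*) [CommRing R] [Algebra ℚ R] (q : ℚ) : R := algebraMap ℚ R q

/-- Taylor expansion of `p` at the point `x`: `∑ m, p^(m)(x) / m! * u^m`, a power series in `u` -/
noncomputable def taylor (p : R) : R⟦X⟧ :=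
  PowerSeries.mk fun m => cq R (m ! : ℚ)⁻¹ * (⇑δ)^[m] p

/-- the part of order `≥ 3` of the Taylor expansion of `f` at the point `x` -/
noncomputable def vertex (f : R) : R⟦X⟧ :=
  PowerSeries.mk fun m => if m < 3 then 0 else cq R (m ! : ℚ)⁻¹ * (⇑δ)^[m] f

/-- the coefficient of `ħ^r` of the Gaussian moment of `u^(2r)` with respect to
`exp(f''(x) u²/(2ħ))`, that is `(2r-1)!! (-1/f''(x))^r`; here `w` is `1/f''(x)` -/
noncomputable def gauss (w : R) (r : ℕ) : R :=
  cq R ((-1) ^ r * ((2 * r - 1)‼ : ℕ)) * w ^ r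

/-- The coefficient `A_k[f,g]`: the coefficient of `ħ^k` in the formal Gaussian integral of
`g(x+u) exp((f(x+u) - f(x) - f'(x) u - f''(x) u²/2)/ħ)` with weight `exp(f''(x) u²/(2ħ))`.  The term
with `s` vertices and `u^(2(k+s))` contributes to `ħ^(k+s-s)`; there are none with `s > 2k`. -/
noncomputable def A (w f g : R) (k : ℕ) : R :=
  ∑ s ∈ range (2 * k + 1), cq R (s ! : ℚ)⁻¹ *
    (gauss w (k + s) * coeff (2 * (k + s)) (taylor δ g * vertex δ f ^ s))

end wick

section laurent

variable (K : Type*) [Field K] [CharZero K]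

/-- `X d/dX` on Laurent series; used in proofs only -/
noncomputable def thL (p : K⸨X⸩) : K⸨X⸩ := HahnSeries.single 1 (1 : K) * LaurentSeries.derivative K p

variable {K}

theorem coeff_derivL (p : K⸨X⸩) (n : ℤ) :
    (LaurentSeries.derivative K p).coeff n = ((n : K) + 1) * p.coeff (n + 1) := by
  rw [LaurentSeries.derivative_apply, LaurentSeries.hasseDeriv_coeff]
  simp

theorem coeff_thL (p : K⸨X⸩) (n : ℤ) : (thL K p).coeff n = (n : K) * p.coeff n := by
  rw [thL, HahnSeries.coeff_single_mul, coeff_derivL, one_mul, sub_add_cancel]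
  push_cast
  ring

theorem thL_mul (p q : K⸨X⸩) : thL K (p * q) = p * thL K q + q * thL K p := by
  ext n
  rw [mul_comm q, HahnSeries.coeff_add, coeff_thL,
    HahnSeries.coeff_mul_right' (x := p) (y := thL K q) q.isPWO_support (fun i hi => by
      rw [HahnSeries.mem_support] at hi ⊢
      intro h0
      exact hi (by rw [coeff_thL, h0, mul_zero])),
    HahnSeries.coeff_mul_left' (x := thL K p) (y := q) p.isPWO_support (fun i hi => by
      rw [HahnSeries.mem_support] at hi ⊢
      intro h0
      exact hi (by rw [coeff_thL, h0, mul_zero])), HahnSeries.coeff_mul, mul_sum,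
      ← sum_add_distrib]
  refine sum_congr rfl fun ij hij => ?_
  rw [Finset.mem_antidiagonal] at hij
  rw [coeff_thL, coeff_thL, ← hij.2.2]
  push_cast
  ring

theorem derivL_mul (p q : K⸨X⸩) : LaurentSeries.derivative K (p * q) =
    p * LaurentSeries.derivative K q + q * LaurentSeries.derivative K p := by
  have h1 : (HahnSeries.single 1 (1 : K) : K⸨X⸩) ≠ 0 := by
    rw [Ne, HahnSeries.single_eq_zero_iff]
    exact one_ne_zero
  refine mul_left_cancel₀ h1 ?_
  have h2 := thL_mul p q
  rw [thL, thL, thL] at h2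
  rw [h2]
  ring

/-- A derivation of a ring containing `ℚ` -/
abbrev Der (R : Type*) [CommRing R] [Algebra ℚ R] := Derivation ℚ R R

/-- additive maps with the Leibniz rule are derivations -/
noncomputable def Der.ofAdd {R : Type*} [CommRing R] [Algebra ℚ R] (D : R →+ R)
    (h : ∀ p q, D (p * q) = p * D q + q * D p) : Der R :=
  Derivation.mk' D.toRatLinearMap h

variable (K)

/-- the derivation `d/dX` of the field of Laurent series (Mathlib's `LaurentSeries.derivative`) -/
noncomputable def dL : Der K⸨X⸩ :=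
  Der.ofAdd (LaurentSeries.derivative K : K⸨X⸩ →ₗ[K] K⸨X⸩).toAddMonoidHom derivL_mul

variable {K}

end laurent

section conic

variable {K : Type*} [Field K]

/-- the inclusion of formal power series into Laurent series -/
noncomputable abbrev io (K : Type*) [Field K] : K⟦X⟧ →+* K⸨X⸩ := HahnSeries.ofPowerSeries ℤ K

/-- the power series `1`, `p`, `p^2`, `q`, `p q`, `q^2` are linearly dependent over `K` -/
def OnConic (p q : K⟦X⟧) : Prop := ∃ a : Fin 6 → K, a ≠ 0 ∧
  C (a 0) + C (a 1) * p + C (a 2) * p ^ 2 + C (a 3) * q + C (a 4) * (p * q) + C (a 5) * q ^ 2 = 0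

end conic

section conv

variable {K : Type*} [RCLike K]

/-- the power series `p` has a positive radius of convergence -/
def Conv (p : K⟦X⟧) : Prop := ∃ B : ℝ, ∀ n, ‖coeff n p‖ ≤ B ^ (n + 1)

end conv

end Pool.Agent.Lib.MP_50ed31_mp
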