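import Pool.Agent.Lib.MP_50ed31_mp.Ode

/-!
MP_50ed31_mp, one variable.  The dual conic, and the theorem for `f''(0) ≠ 0`.
-/

open PowerSeries Finset Module
open scoped Nat

namespace Pool.Agent.Lib.MP_50ed31_mp

variable {K : Type*} [Field K] [CharZero K]

/-- If `p`, `q` are not on a conic, then there are six orders. -/
theorem exists_six {p q : K⟦X⟧} (h : ¬ OnConic p q) :
    ∃ s : Finset ℕ, s.card = 6 ∧ ∀ m ∈ s, m ∈ Ords (Gen p q 2) := by
  have h0 : (1 : K⟦X⟧) ∈ Gen p q 2 := one_mem_Gen _ _ _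
  have h10 : (1 : K⟦X⟧) ∈ Gen p q 1 := one_mem_Gen _ _ _
  have h00 : (1 : K⟦X⟧) ∈ Gen p q 0 := one_mem_Gen _ _ _
  have hz : ∀ l, (0 : K⟦X⟧) ∈ Gen p q l := fun l => zero_mem _
  have hp1 : p ∈ Gen p q 1 := mem_Gen_succ.mpr ⟨0, hz _, 1, h00, 0, hz _, by ring⟩
  have hq1 : q ∈ Gen p q 1 := mem_Gen_succ.mpr ⟨0, hz _, 0, hz _, 1, h00, by ring⟩
  have h1 : p ∈ Gen p q 2 := mem_Gen_succ.mpr ⟨0, hz _, 1, h10, 0, hz _, by ring⟩
  have h3 : q ∈ Gen p q 2 := mem_Gen_succ.mpr ⟨0, hz _, 0, hz _, 1, h10, by ring⟩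
  have h2 : p ^ 2 ∈ Gen p q 2 := mem_Gen_succ.mpr ⟨0, hz _, p, hp1, 0, hz _, by ring⟩
  have h4 : p * q ∈ Gen p q 2 := mem_Gen_succ.mpr ⟨0, hz _, q, hq1, 0, hz _, by ring⟩
  have h5 : q ^ 2 ∈ Gen p q 2 := mem_Gen_succ.mpr ⟨0, hz _, 0, hz _, q, hq1, by ring⟩
  set b : Fin 6 → K⟦X⟧ := ![1, p, p ^ 2, q, p * q, q ^ 2] with hb
  have hli : LinearIndependent K b := by
    rw [Fintype.linearIndependent_iff]
    intro a ha
    by_contra hne
    push Not at hne
    obtain ⟨i, hi⟩ := hne
    refine h ⟨a, fun h => hi (congrFun h i), ?_⟩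
    rw [Fin.sum_univ_six] at ha
    simp only [hb, smul_eq_C_mul] at ha
    simpa using ha
  have hsub : Submodule.span K (Set.range b) ≤ Gen p q 2 := by
    rw [Submodule.span_le]
    rintro _ ⟨i, rfl⟩
    fin_cases i
    · exact h0
    · exact h1
    · exact h2
    · exact h3
    · exact h4
    · exact h5
  obtain ⟨s, hs, hsW⟩ := exists_ords (Submodule.span K (Set.range b)) 6 (by
    rw [finrank_span_eq_card hli]; simp)
  exact ⟨s, hs, fun m hm => Ords_mono hsub (hsW m hm)⟩

theorem C_eq_C_mul_X {a b : K} (h : (C a : K⟦X⟧) = C b * X) : a = 0 ∧ b = 0 := by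
  have h0 := congrArg (coeff 0) h
  have h1 := congrArg (coeff 1) h
  rw [coeff_C_mul, coeff_X] at h0 h1
  rw [coeff_C] at h0 h1
  simp at h0 h1
  exact ⟨h0, h1.symm⟩

/-- `1`, `X`, `f` are independent if `f'' ≠ 0` -/
theorem indep_one {f : K⟦X⟧} (hf : dX K (dX K f) ≠ 0) {a b c : K}
    (h : C a + C b * X + C c * f = 0) : a = 0 ∧ b = 0 ∧ c = 0 := by
  have h1 := congrArg (dX K) h
  simp only [map_add, Derivation.leibniz, dX_C, dX_X, smul_eq_mul, mul_zero, add_zero, zero_add,
    mul_one, map_zero] at h1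
  have h2 := congrArg (dX K) h1
  simp only [map_add, Derivation.leibniz, dX_C, smul_eq_mul, mul_zero, add_zero, zero_add,
    map_zero] at h2
  have hc : c = 0 := by
    have := (mul_eq_zero.mp h2).resolve_right hf
    exact C_injective (by rw [this, map_zero])
  subst hc
  rw [map_zero, zero_mul, add_zero] at h1 h
  have hb : b = 0 := C_injective (by rw [h1, map_zero])
  subst hb
  rw [map_zero, zero_mul, add_zero] at h
  exact ⟨C_injective (by rw [h, map_zero]), rfl, rfl⟩

/-- `1`, `f'`, `f - X f'` are independent if `f'' ≠ 0` -/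
theorem indep_two {f : K⟦X⟧} (hf : dX K (dX K f) ≠ 0) {a b c : K}
    (h : C a + C b * dX K f + C c * (f - X * dX K f) = 0) : a = 0 ∧ b = 0 ∧ c = 0 := by
  have h1 := congrArg (dX K) h
  simp only [map_add, map_sub, Derivation.leibniz, dX_C, dX_X, smul_eq_mul, mul_zero, add_zero,
    zero_add, mul_one, map_zero] at h1
  have h2 : dX K (dX K f) * (C b - C c * X) = 0 := by linear_combination h1
  have h3 := (mul_eq_zero.mp h2).resolve_left hf
  obtain ⟨hb, hc⟩ := C_eq_C_mul_X (sub_eq_zero.mp h3)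
  subst hb hc
  rw [map_zero, zero_mul, add_zero, zero_mul, add_zero] at h
  exact ⟨C_injective (by rw [h, map_zero]), rfl, rfl⟩

/-- the dual of a conic is a conic -/
theorem dual_conic {f : K⟦X⟧} (hf : dX K (dX K f) ≠ 0)
    (h : OnConic (dX K f) (f - X * dX K f)) : OnConic X f := by
  obtain ⟨β, hβ, hc⟩ := h
  set u := dX K f with hu
  set v := f - X * u with hv
  set f2 := dX K u with hf2
  have hvd : dX K v = -(X * f2) := by
    rw [hv, map_sub, Derivation.leibniz, dX_X, smul_eq_mul, smul_eq_mul]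
    ring
  -- the gradient
  set s0 : K⟦X⟧ := 2 * C (β 5) * v + C (β 4) * u + C (β 3) with hs0
  set s1 : K⟦X⟧ := C (β 4) * v + 2 * C (β 2) * u + C (β 1) with hs1
  set s2 : K⟦X⟧ := -(C (β 3) * v) - C (β 1) * u - 2 * C (β 0) with hs2
  have h22 : dX K (2 : K⟦X⟧) = 0 := by
    have := Derivation.map_natCast (dX K) 2
    exact_mod_cast this
  have e1 : s1 = X * s0 := by
    have h1 := congrArg (dX K) hc
    simp only [map_add, Derivation.leibniz, Derivation.leibniz_pow, dX_C, smul_eq_mul,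
      nsmul_eq_mul, mul_zero, add_zero, zero_add, map_zero, hvd, ← hf2] at h1
    push_cast at h1
    have h2 : f2 * (s1 - X * s0) = 0 := by
      rw [hs0, hs1]
      linear_combination h1
    have h3 := (mul_eq_zero.mp h2).resolve_left hf
    linear_combination h3
  have e2 : s2 = f * s0 := by
    have h1 : v * s0 + u * s1 - s2 = 0 := by
      rw [hs0, hs1, hs2]
      linear_combination 2 * hc
    have h2 : f = v + X * u := by rw [hv]; ring
    rw [h2]
    linear_combination u * e1 - h1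
  have hs0ne : s0 ≠ 0 := by
    intro h0
    have h1 : s1 = 0 := by rw [e1, h0, mul_zero]
    have h2 : s2 = 0 := by rw [e2, h0, mul_zero]
    have h3 := indep_two hf (a := β 3) (b := β 4) (c := 2 * β 5) (by
      rw [map_mul, map_ofNat, ← hu, ← hv]
      rw [hs0] at h0
      linear_combination h0)
    have h4 := indep_two hf (a := β 1) (b := 2 * β 2) (c := β 4) (by
      rw [map_mul, map_ofNat, ← hu, ← hv]
      rw [hs1] at h1
      linear_combination h1)
    have h5 := indep_two hf (a := 2 * β 0) (b := β 1) (c := β 3) (by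
      rw [map_mul, map_ofNat, ← hu, ← hv]
      rw [hs2] at h2
      linear_combination -h2)
    refine hβ ?_
    funext i
    fin_cases i
    · exact (mul_eq_zero.mp h5.1).resolve_left two_ne_zero
    · exact h5.2.1
    · exact (mul_eq_zero.mp h4.2.1).resolve_left two_ne_zero
    · exact h5.2.2
    · exact h4.2.2
    · exact (mul_eq_zero.mp h3.2.2).resolve_left two_ne_zero
  -- the matrix
  obtain ⟨a, ha⟩ : ∃ a : K, a = 2 * β 5 := ⟨_, rfl⟩
  obtain ⟨b, hb⟩ : ∃ b : K, b = β 4 := ⟨_, rfl⟩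
  obtain ⟨c, hc'⟩ : ∃ c : K, c = -β 3 := ⟨_, rfl⟩
  obtain ⟨d, hd⟩ : ∃ d : K, d = 2 * β 2 := ⟨_, rfl⟩
  obtain ⟨e, he⟩ : ∃ e : K, e = -β 1 := ⟨_, rfl⟩
  obtain ⟨g, hg⟩ : ∃ g : K, g = 2 * β 0 := ⟨_, rfl⟩
  have t0 : s0 = C a * v + C b * u - C c := by
    rw [hs0, ha, hb, hc', map_mul, map_ofNat, map_neg]; ring
  have t1 : s1 = C b * v + C d * u - C e := by
    rw [hs1, hd, hb, he, map_mul, map_ofNat, map_neg]; ring
  have t2 : s2 = C c * v + C e * u - C g := by
    rw [hs2, hc', he, hg, map_mul, map_ofNat, map_neg, map_neg]; ring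
  have hvf : v + X * u - f = 0 := by rw [hv]; ring
  refine ⟨![d * g - e ^ 2, 2 * (c * e - b * g), a * g - c ^ 2, 2 * (b * e - c * d),
    2 * (b * c - a * e), a * d - b ^ 2], ?_, ?_⟩
  · intro hall
    have q1 : c * e - b * g = 0 := (mul_eq_zero.mp (congrFun hall 1)).resolve_left two_ne_zero
    have q2 : a * g - c ^ 2 = 0 := congrFun hall 2
    have q3 : b * e - c * d = 0 := (mul_eq_zero.mp (congrFun hall 3)).resolve_left two_ne_zero
    have q4 : b * c - a * e = 0 := (mul_eq_zero.mp (congrFun hall 4)).resolve_left two_ne_zero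
    have q5 : a * d - b ^ 2 = 0 := congrFun hall 5
    have p1 : (C c : K⟦X⟧) * C e - C b * C g = 0 := by
      rw [← map_mul, ← map_mul, ← map_sub, q1, map_zero]
    have p2 : (C a : K⟦X⟧) * C g - C c ^ 2 = 0 := by
      rw [← map_mul, ← map_pow, ← map_sub, q2, map_zero]
    have p3 : (C b : K⟦X⟧) * C e - C c * C d = 0 := by
      rw [← map_mul, ← map_mul, ← map_sub, q3, map_zero]
    have p4 : (C b : K⟦X⟧) * C c - C a * C e = 0 := by
      rw [← map_mul, ← map_mul, ← map_sub, q4, map_zero]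
    have p5 : (C a : K⟦X⟧) * C d - C b ^ 2 = 0 := by
      rw [← map_mul, ← map_pow, ← map_sub, q5, map_zero]
    have k0 : s0 * (C b - C a * X) = 0 := by
      have h1 : C b * s0 - C a * s1 = 0 := by rw [t0, t1]; linear_combination -u * p5 - p4
      rw [e1] at h1
      linear_combination h1
    have k1 : s0 * (C d - C b * X) = 0 := by
      have h1 : C d * s0 - C b * s1 = 0 := by rw [t0, t1]; linear_combination v * p5 + p3
      rw [e1] at h1
      linear_combination h1
    have k2 : s0 * (C e - C c * X) = 0 := by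
      have h1 : C e * s0 - C c * s1 = 0 := by rw [t0, t1]; linear_combination -v * p4 + u * p3
      rw [e1] at h1
      linear_combination h1
    have k3 : C g * s0 - C c * s2 = 0 := by rw [t0, t2]; linear_combination v * p2 - u * p1
    obtain ⟨b0, a0⟩ := C_eq_C_mul_X (sub_eq_zero.mp ((mul_eq_zero.mp k0).resolve_left hs0ne))
    obtain ⟨d0, -⟩ := C_eq_C_mul_X (sub_eq_zero.mp ((mul_eq_zero.mp k1).resolve_left hs0ne))
    obtain ⟨e0, c0⟩ := C_eq_C_mul_X (sub_eq_zero.mp ((mul_eq_zero.mp k2).resolve_left hs0ne))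
    have g0 : g = 0 := by
      rw [c0, map_zero, zero_mul, sub_zero] at k3
      exact C_injective (by rw [(mul_eq_zero.mp k3).resolve_right hs0ne, map_zero])
    refine hβ ?_
    funext i
    fin_cases i
    · exact (mul_eq_zero.mp (hg.symm.trans g0)).resolve_left two_ne_zero
    · exact neg_eq_zero.mp (he.symm.trans e0)
    · exact (mul_eq_zero.mp (hd.symm.trans d0)).resolve_left two_ne_zero
    · exact neg_eq_zero.mp (hc'.symm.trans c0)
    · exact hb.symm.trans b0
    · exact (mul_eq_zero.mp (ha.symm.trans a0)).resolve_left two_ne_zero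
  · refine (mul_eq_zero.mp (?_ : s0 * _ = 0)).resolve_left hs0ne
    have z0 : (![d * g - e ^ 2, 2 * (c * e - b * g), a * g - c ^ 2, 2 * (b * e - c * d),
        2 * (b * c - a * e), a * d - b ^ 2] : Fin 6 → K) 0 = d * g - e ^ 2 := rfl
    have z1 : (![d * g - e ^ 2, 2 * (c * e - b * g), a * g - c ^ 2, 2 * (b * e - c * d),
        2 * (b * c - a * e), a * d - b ^ 2] : Fin 6 → K) 1 = 2 * (c * e - b * g) := rfl
    have z2 : (![d * g - e ^ 2, 2 * (c * e - b * g), a * g - c ^ 2, 2 * (b * e - c * d),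
        2 * (b * c - a * e), a * d - b ^ 2] : Fin 6 → K) 2 = a * g - c ^ 2 := rfl
    have z3 : (![d * g - e ^ 2, 2 * (c * e - b * g), a * g - c ^ 2, 2 * (b * e - c * d),
        2 * (b * c - a * e), a * d - b ^ 2] : Fin 6 → K) 3 = 2 * (b * e - c * d) := rfl
    have z4 : (![d * g - e ^ 2, 2 * (c * e - b * g), a * g - c ^ 2, 2 * (b * e - c * d),
        2 * (b * c - a * e), a * d - b ^ 2] : Fin 6 → K) 4 = 2 * (b * c - a * e) := rfl
    have z5 : (![d * g - e ^ 2, 2 * (c * e - b * g), a * g - c ^ 2, 2 * (b * e - c * d),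
        2 * (b * c - a * e), a * d - b ^ 2] : Fin 6 → K) 5 = a * d - b ^ 2 := rfl
    rw [z0, z1, z2, z3, z4, z5]
    simp only [map_sub, map_mul, map_pow, map_ofNat]
    rw [t0, t1] at e1
    rw [t0, t2] at e2
    rw [t0]
    -- `A₀₁ + X A₁₁ + f A₁₂` and `A₀₂ + X A₁₂ + f A₂₂`
    linear_combination
      (-((C c * C e - C b * C g) + X * (C a * C g - C c ^ 2) + f * (C b * C c - C a * C e))) * e1 -
      ((C b * C e - C c * C d) + X * (C b * C c - C a * C e) + f * (C a * C d - C b ^ 2)) * e2 +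
      (C a * (C d * C g - C e ^ 2) + C b * (C c * C e - C b * C g) +
        C c * (C b * C e - C c * C d)) * hvf

end Pool.Agent.Lib.MP_50ed31_mp
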