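import Pool.Agent.Lib.MP_50ed31_mp.Dual

/-!
MP_50ed31_mp, one variable.  The theorem over a differential field.
-/

open PowerSeries Finset Module
open scoped Nat

namespace Pool.Agent.Lib.MP_50ed31_mp

/-- pairs lead to conics, for `f''(0) ≠ 0` -/
theorem pair_onConic {K : Type*} [Field K] [CharZero K] {w f : K⟦X⟧}
    (hw : w * dX K (dX K f) = 1) {a b : ℕ} {g : ℕ → K⟦X⟧}
    (hg : IsPair (dX K) w f a b g) (hg0 : ∃ j, g j ≠ 0) : OnConic X f := by
  by_contra h
  have hf : dX K (dX K f) ≠ 0 := fun h0 => by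
    rw [h0, mul_zero] at hw
    exact zero_ne_one hw
  obtain ⟨s, hs, hsG⟩ := exists_six h
  obtain ⟨s', hs', hsG'⟩ := exists_six (fun h2 => h (dual_conic hf h2))
  exact sextuples hw hg hg0 hs hs' hsG hsG'

/-! ## naturality -/

section nat

variable {R R' : Type*} [CommRing R] [Algebra ℚ R] [CommRing R'] [Algebra ℚ R']
  {δ : Derivation ℚ R R} {δ' : Derivation ℚ R' R'} (ι : R →+* R') (hι : ∀ p, δ' (ι p) = ι (δ p))

theorem cq_nat (q : ℚ) : ι (cq R q) = cq R' q := RingHom.map_rat_algebraMap ι q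

include hι

theorem iter_nat (m : ℕ) (p : R) : (⇑δ')^[m] (ι p) = ι ((⇑δ)^[m] p) := by
  induction m generalizing p with
  | zero => rfl
  | succ m ih => rw [Function.iterate_succ_apply, hι, ih, Function.iterate_succ_apply]

theorem taylor_nat (p : R) : taylor δ' (ι p) = PowerSeries.map ι (taylor δ p) := by
  ext1 m
  rw [coeff_taylor, coeff_map, coeff_taylor, map_mul, iter_nat ι hι, cq_nat]

theorem vertex_nat (f : R) : vertex δ' (ι f) = PowerSeries.map ι (vertex δ f) := by
  ext1 m
  rw [vertex, coeff_mk, coeff_map, vertex, coeff_mk, iter_nat ι hι]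
  split_ifs
  · rw [map_zero]
  · rw [map_mul, cq_nat]

theorem A_nat (w f g : R) (k : ℕ) : A δ' (ι w) (ι f) (ι g) k = ι (A δ w f g k) := by
  rw [A, A, map_sum]
  refine sum_congr rfl fun s _ => ?_
  rw [taylor_nat ι hι, vertex_nat ι hι, ← map_pow (PowerSeries.map ι),
    ← map_mul (PowerSeries.map ι), coeff_map, map_mul ι, map_mul ι, gauss, gauss, map_mul ι,
    map_pow ι, cq_nat, cq_nat]

theorem ft_nat (w f : R) (g : ℕ → R) (l : ℕ) :
    ft δ' (ι w) (ι f) (fun j => ι (g j)) l = ι (ft δ w f g l) := by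
  rw [ft, ft, map_sum]
  exact sum_congr rfl fun j _ => A_nat ι hι _ _ _ _

theorem IsPair.nat {w f : R} {a b : ℕ} {g : ℕ → R} (hg : IsPair δ w f a b g) :
    IsPair δ' (ι w) (ι f) a b (fun j => ι (g j)) :=
  ⟨fun j hj => by
    show ι (g j) = 0
    rw [hg.1 j hj, map_zero], fun l hl => by rw [ft_nat ι hι, hg.2 l hl, map_zero]⟩

end nat

/-! ## the Taylor homomorphism -/

section taylor

variable {L : Type*} [Field L] [CharZero L] (δ : Derivation ℚ L L)

/-- Taylor expansion as a homomorphism of rings -/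
noncomputable def TT : L →+* L⟦X⟧ where
  toFun := taylor δ
  map_one' := by
    ext1 m
    rw [coeff_taylor]
    rcases m with _ | m
    · simp
    · rw [Function.iterate_succ_apply, Derivation.map_one_eq_zero]
      have h : ∀ m, (⇑δ)^[m] (0 : L) = 0 := by
        intro m
        induction m with
        | zero => rfl
        | succ m ih => rw [Function.iterate_succ_apply, map_zero, ih]
      rw [h, mul_zero, coeff_one, if_neg (by omega)]
  map_mul' := taylor_mul δ
  map_zero' := by
    ext1 m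
    have h : ∀ m, (⇑δ)^[m] (0 : L) = 0 := by
      intro m
      induction m with
      | zero => rfl
      | succ m ih => rw [Function.iterate_succ_apply, map_zero, ih]
    rw [coeff_taylor, h, mul_zero, map_zero]
  map_add' := taylor_add δ

theorem TT_apply (p : L) : TT δ p = taylor δ p := rfl

theorem dX_TT (p : L) : dX L (TT δ p) = TT δ (δ p) := d_taylor δ p

theorem dc_TT (p : L) : dc δ (TT δ p) = TT δ (δ p) := dc_taylor δ p

theorem dc_C (a : L) : dc δ (C a) = C (δ a) := by
  ext1 m
  rw [coeff_dc, coeff_C, coeff_C]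
  split_ifs <;> simp

theorem coeff_zero_TT (p : L) : coeff 0 (TT δ p) = p := by
  rw [TT_apply, coeff_taylor]; simp

/-- a linear relation with variable coefficients between Taylor expansions gives one with constant
coefficients -/
theorem descent {n : ℕ} (h : Fin n → L) {b : Fin n → L} (hb : b ≠ 0)
    (hbh : ∑ i, C (b i) * TT δ (h i) = 0) :
    ∃ c : Fin n → L, c ≠ 0 ∧ (∀ i, δ (c i) = 0) ∧ ∑ i, c i * h i = 0 := by
  classical
  have hex : ∃ N, ∃ b : Fin n → L, b ≠ 0 ∧ ∑ i, C (b i) * TT δ (h i) = 0 ∧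
      (univ.filter fun i => b i ≠ 0).card = N := ⟨_, b, hb, hbh, rfl⟩
  obtain ⟨b, hb, hbh, hN⟩ := Nat.find_spec hex
  obtain ⟨i0, hi0⟩ := Function.ne_iff.mp hb
  have hi0 : b i0 ≠ 0 := hi0
  refine ⟨fun i => b i / b i0, ?_, ?_, ?_⟩
  · intro h0
    have := congrFun h0 i0
    simp [hi0] at this
  · have h1 : ∑ i, C (b i / b i0) * TT δ (h i) = 0 := by
      have : ∑ i, C (b i / b i0) * TT δ (h i) = C (b i0)⁻¹ * ∑ i, C (b i) * TT δ (h i) := by
        rw [mul_sum]
        refine sum_congr rfl fun i _ => ?_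
        rw [div_eq_inv_mul, map_mul, mul_assoc]
      rw [this, hbh, mul_zero]
    have h2 : ∑ i, C (b i / b i0) * TT δ (δ (h i)) = 0 := by
      have h3 := congrArg (dX L) h1
      rw [map_sum, map_zero] at h3
      rw [← h3]
      refine sum_congr rfl fun i _ => ?_
      rw [Derivation.leibniz, dX_C, smul_zero, add_zero, smul_eq_mul, dX_TT]
    have h4 : ∑ i, C (δ (b i / b i0)) * TT δ (h i) = 0 := by
      have h3 := congrArg (dc δ) h1
      rw [map_sum, map_zero] at h3
      rw [← h3]
      rw [← sub_eq_zero, ← sum_sub_distrib, ← neg_eq_zero, ← sum_neg_distrib, ← h2]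
      refine sum_congr rfl fun i _ => ?_
      rw [Derivation.leibniz, dc_C, smul_eq_mul, smul_eq_mul, dc_TT]
      ring
    by_contra hcon
    have hne : (fun i => δ (b i / b i0)) ≠ 0 := by
      intro h0
      exact hcon fun i => congrFun h0 i
    refine Nat.find_min hex (m := (univ.filter fun i => δ (b i / b i0) ≠ 0).card) ?_
      ⟨_, hne, h4, rfl⟩
    rw [← hN]
    refine card_lt_card ⟨?_, ?_⟩
    · intro i hi
      rw [mem_filter] at hi ⊢
      refine ⟨mem_univ _, fun h0 => hi.2 ?_⟩
      rw [h0, zero_div, map_zero]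
    · intro hsub
      have h5 := hsub (mem_filter.mpr ⟨mem_univ i0, hi0⟩)
      rw [mem_filter, div_self hi0, Derivation.map_one_eq_zero] at h5
      exact h5.2 rfl
  · have h1 := congrArg (coeff 0) hbh
    rw [map_sum, map_zero] at h1
    simp only [coeff_C_mul, coeff_zero_TT] at h1
    have : ∑ i, b i / b i0 * h i = (b i0)⁻¹ * ∑ i, b i * h i := by
      rw [mul_sum]
      refine sum_congr rfl fun i _ => ?_
      rw [div_eq_inv_mul, mul_assoc]
    rw [this, h1, mul_zero]

/-- **Main theorem, over a differential field.** -/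
theorem pair_conic_field {x f w : L} (hx : δ x = 1) (hw : w * δ (δ f) = 1) {a b : ℕ} {g : ℕ → L}
    (hg : IsPair δ w f a b g) (hg0 : ∃ j, g j ≠ 0) :
    ∃ c : Fin 6 → L, c ≠ 0 ∧ (∀ i, δ (c i) = 0) ∧
      c 0 + c 1 * x + c 2 * x ^ 2 + c 3 * f + c 4 * (x * f) + c 5 * f ^ 2 = 0 := by
  have hW : TT δ w * dX L (dX L (TT δ f)) = 1 := by
    rw [dX_TT, dX_TT, ← map_mul, hw, map_one]
  have hG := hg.nat (δ' := dX L) (TT δ) (dX_TT δ)
  have hG0 : ∃ j, TT δ (g j) ≠ 0 := by
    obtain ⟨j, hj⟩ := hg0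
    refine ⟨j, fun h0 => hj ?_⟩
    rw [← coeff_zero_TT δ (g j), h0, map_zero]
  obtain ⟨α, hα, hc⟩ := pair_onConic hW hG hG0
  have hX : TT δ x = C x + X := by
    ext1 m
    rw [TT_apply, coeff_taylor, map_add, coeff_C, coeff_X]
    rcases m with _ | _ | m
    · simp
    · simp [hx]
    · rw [Function.iterate_succ_apply, Function.iterate_succ_apply, hx,
        Derivation.map_one_eq_zero, if_neg (by omega), if_neg (by omega)]
      have h : ∀ m, (⇑δ)^[m] (0 : L) = 0 := by
        intro m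
        induction m with
        | zero => rfl
        | succ m ih => rw [Function.iterate_succ_apply, map_zero, ih]
      rw [h, mul_zero, add_zero]
  have key := descent δ ![1, x, x ^ 2, f, x * f, f ^ 2]
    (b := ![α 0 - α 1 * x + α 2 * x ^ 2, α 1 - 2 * α 2 * x, α 2, α 3 - α 4 * x, α 4, α 5]) ?_ ?_
  · obtain ⟨c, hc0, hcδ, hcs⟩ := key
    refine ⟨c, hc0, hcδ, ?_⟩
    rw [Fin.sum_univ_six] at hcs
    simpa using hcs
  · intro h0
    have q5 : α 5 = 0 := congrFun h0 5
    have q4 : α 4 = 0 := congrFun h0 4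
    have q2 : α 2 = 0 := congrFun h0 2
    have q3 : α 3 - α 4 * x = 0 := congrFun h0 3
    have q1 : α 1 - 2 * α 2 * x = 0 := congrFun h0 1
    have q0 : α 0 - α 1 * x + α 2 * x ^ 2 = 0 := congrFun h0 0
    rw [q4, zero_mul, sub_zero] at q3
    rw [q2, mul_zero, zero_mul, sub_zero] at q1
    rw [q1, q2, zero_mul, zero_mul, sub_zero, add_zero] at q0
    refine hα ?_
    funext i
    fin_cases i
    · exact q0
    · exact q1
    · exact q2
    · exact q3
    · exact q4
    · exact q5
  · rw [Fin.sum_univ_six]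
    have hX' : (X : L⟦X⟧) = TT δ x - C x := by rw [hX]; ring
    rw [hX'] at hc
    simp only [Matrix.cons_val_zero, Matrix.cons_val_one, Matrix.cons_val]
    simp only [map_add, map_sub, map_mul, map_pow, map_ofNat, map_one]
    linear_combination hc

end taylor

end Pool.Agent.Lib.MP_50ed31_mp
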