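import Pool.Agent.Lib.MP_50ed31_mp.Laurent

/-!
MP_50ed31_mp, one variable.  The theorem for formal power series with `f'' ≠ 0`.
-/

open PowerSeries Finset Module
open scoped Nat LaurentSeries

namespace Pool.Agent.Lib.MP_50ed31_mp

/-- the theorem over a differential field of characteristic zero -/
theorem pair_conic {L : Type*} [Field L] [inst : Algebra ℚ L] (δ : Der L) {x f w : L}
    (hx : δ x = 1) (hw : w * δ (δ f) = 1) {a b : ℕ} {g : ℕ → L}
    (hg : IsPair δ w f a b g) (hg0 : ∃ j, g j ≠ 0) :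
    ∃ c : Fin 6 → L, c ≠ 0 ∧ (∀ i, δ (c i) = 0) ∧
      c 0 + c 1 * x + c 2 * x ^ 2 + c 3 * f + c 4 * (x * f) + c 5 * f ^ 2 = 0 := by
  have h0 : CharZero L := algebraRat.charZero L
  obtain rfl : inst = DivisionRing.toRatAlgebra := Subsingleton.elim _ _
  exact pair_conic_field δ hx hw hg hg0

/-- an `ħ`-free admissible `g` is a pair -/
theorem isPair_of_admissible {R : Type*} [CommRing R] [Algebra ℚ R] {δ : Der R} {w f g : R}
    (h : ∀ k, 1 ≤ k → A δ w f g k = 0) :
    IsPair δ w f 0 0 (fun j => if j = 0 then g else 0) := by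
  refine ⟨fun j hj => if_neg (by omega), fun l hl => ?_⟩
  rw [ft, sum_range_succ', sum_eq_zero fun j _ => by rw [if_neg (by omega), A_map_zero],
    if_pos rfl, zero_add, Nat.sub_zero]
  exact h l hl

variable {K : Type*} [Field K] [CharZero K]

/-- On a conic the second derivative does not vanish at the origin. -/
theorem conic_hess {f : K⟦X⟧} (hf : dX K (dX K f) ≠ 0) {a : Fin 6 → K} (ha : a ≠ 0)
    (hc : C (a 0) + C (a 1) * X + C (a 2) * X ^ 2 + C (a 3) * f + C (a 4) * (X * f) +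
      C (a 5) * f ^ 2 = 0) :
    C (a 3) + C (a 4) * X + 2 * C (a 5) * f ≠ 0 ∧ coeff 0 (dX K (dX K f)) ≠ 0 := by
  have h22 : dX K (2 : K⟦X⟧) = 0 := by
    have := Derivation.map_natCast (dX K) 2
    exact_mod_cast this
  have e1 : C (a 1) + 2 * C (a 2) * X + C (a 4) * f +
      (C (a 3) + C (a 4) * X + 2 * C (a 5) * f) * dX K f = 0 := by
    have h := congrArg (dX K) hc
    simp only [map_add, Derivation.leibniz, Derivation.leibniz_pow, smul_eq_mul, nsmul_eq_mul,
      dX_C, dX_X, map_zero] at h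
    push_cast at h
    linear_combination h
  have e2 : 2 * C (a 2) + 2 * C (a 4) * dX K f + 2 * C (a 5) * (dX K f) ^ 2 +
      (C (a 3) + C (a 4) * X + 2 * C (a 5) * f) * dX K (dX K f) = 0 := by
    have h := congrArg (dX K) e1
    simp only [map_add, Derivation.leibniz, smul_eq_mul, dX_C, dX_X, h22, map_zero] at h
    linear_combination h
  have hω : C (a 3) + C (a 4) * X + 2 * C (a 5) * f ≠ 0 := by
    intro h0
    have h1 := indep_one hf (a := a 3) (b := a 4) (c := 2 * a 5) (by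
      rw [map_mul, map_ofNat]; linear_combination h0)
    have a5 : a 5 = 0 := (mul_eq_zero.mp h1.2.2).resolve_left two_ne_zero
    rw [h1.1, h1.2.1, a5] at hc
    simp only [map_zero, zero_mul, add_zero] at hc
    refine ha ?_
    have c0 := congrArg (coeff 0) hc
    have c1 := congrArg (coeff 1) hc
    have c2 := congrArg (coeff 2) hc
    simp only [map_add, coeff_C_mul, coeff_C, coeff_X, coeff_X_pow, map_zero] at c0 c1 c2
    norm_num at c0 c1 c2
    funext i
    fin_cases i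
    · exact c0
    · exact c1
    · exact c2
    · exact h1.1
    · exact h1.2.1
    · exact a5
  refine ⟨hω, fun h0 => ?_⟩
  -- `f'' ω^3` is constant
  have key : dX K (dX K f) * (C (a 3) + C (a 4) * X + 2 * C (a 5) * f) ^ 3 =
      -C (2 * a 2 * a 3 ^ 2 - 2 * a 4 * a 3 * a 1 + 2 * a 5 * a 1 ^ 2 -
        2 * (4 * a 2 * a 5 - a 4 ^ 2) * a 0) := by
    simp only [map_sub, map_add, map_mul, map_pow, map_ofNat]
    linear_combination (C (a 3) + C (a 4) * X + 2 * C (a 5) * f) ^ 2 * e2 -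
      (2 * C (a 4) * (C (a 3) + C (a 4) * X + 2 * C (a 5) * f) +
        2 * C (a 5) * ((C (a 3) + C (a 4) * X + 2 * C (a 5) * f) * dX K f -
          (C (a 1) + 2 * C (a 2) * X + C (a 4) * f))) * e1 -
      2 * (4 * C (a 2) * C (a 5) - C (a 4) ^ 2) * hc
  have h1 : (2 * a 2 * a 3 ^ 2 - 2 * a 4 * a 3 * a 1 + 2 * a 5 * a 1 ^ 2 -
        2 * (4 * a 2 * a 5 - a 4 ^ 2) * a 0) = 0 := by
    have h2 := congrArg (coeff 0) key
    rw [coeff_zero_eq_constantCoeff_apply, map_mul, ← coeff_zero_eq_constantCoeff_apply, h0,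
      zero_mul, map_neg, coeff_zero_C] at h2
    exact (neg_eq_zero.mp h2.symm)
  rw [h1, map_zero, neg_zero] at key
  rcases mul_eq_zero.mp key with h2 | h2
  · exact hf h2
  · exact hω (pow_eq_zero_iff (by norm_num) |>.mp h2)

/-- On a conic, `A_1[f,g] = 0` implies `A_k[f,g] = 0` for all `k ≥ 1`. -/
theorem conic_exact {f w g : K⟦X⟧} (hw : w * dX K (dX K f) = 1) {a : Fin 6 → K} (ha : a ≠ 0)
    (hc : C (a 0) + C (a 1) * X + C (a 2) * X ^ 2 + C (a 3) * f + C (a 4) * (X * f) +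
      C (a 5) * f ^ 2 = 0) (hg : A (dX K) w f g 1 = 0) : ∀ k, 1 ≤ k → A (dX K) w f g k = 0 := by
  have hf : dX K (dX K f) ≠ 0 := fun h0 => by
    rw [h0, mul_zero] at hw
    exact zero_ne_one hw
  obtain ⟨hω, -⟩ := conic_hess hf ha hc
  intro k hk
  induction k, hk using Nat.le_induction with
  | base => exact hg
  | succ n hn ih =>
    have h1 := conic_step dX_X hw (dX_C (a 0)) (dX_C (a 1)) (dX_C (a 2)) (dX_C (a 3)) (dX_C (a 4))
      (dX_C (a 5)) hc g n ih
    have h2 : ((n : K⟦X⟧) + 1) ≠ 0 := by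
      have : ((n : K⟦X⟧) + 1) = C ((n : K) + 1) := by simp
      rw [this]
      intro h3
      have h4 : ((n : K) + 1) = 0 := C_injective (by rw [h3, map_zero])
      exact Nat.cast_add_one_ne_zero n h4
    exact (mul_eq_zero.mp ((mul_eq_zero.mp h1).resolve_left h2)).resolve_left hω

/-- conic implies admissible -/
theorem conic_admissible {f : K⟦X⟧} (hf : dX K (dX K f) ≠ 0) (hc : OnConic X f) :
    ∃ g : K⟦X⟧, g ≠ 0 ∧ ∀ k, 1 ≤ k →
      A (dL K) (dL K (dL K (io K f)))⁻¹ (io K f) (io K g) k = 0 := by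
  obtain ⟨a, ha, hc⟩ := hc
  obtain ⟨-, h0⟩ := conic_hess hf ha hc
  have hu : IsUnit (dX K (dX K f)) := by
    rw [PowerSeries.isUnit_iff_constantCoeff, ← coeff_zero_eq_constantCoeff_apply]
    exact isUnit_iff_ne_zero.mpr h0
  obtain ⟨w, hw⟩ := hu.exists_left_inv
  obtain ⟨g, hg, hA⟩ := exists_A_one hw
  refine ⟨g, hg, fun k hk => ?_⟩
  have hwL : (dL K (dL K (io K f)))⁻¹ = io K w := by
    rw [inv_eq_iff_eq_inv, eq_comm, inv_eq_iff_eq_inv]
    refine eq_inv_of_mul_eq_one_left ?_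
    rw [dL_coe, dL_coe, ← map_mul, hw, map_one]
  rw [hwL, A_nat (io K) dL_coe, conic_exact hw ha hc hA k hk, map_zero]

/-- pairs lead to conics -/
theorem laurent_conic {f : K⟦X⟧} (hf : dX K (dX K f) ≠ 0) {a b : ℕ} {g : ℕ → K⸨X⸩}
    (hg : IsPair (dL K) (dL K (dL K (io K f)))⁻¹ (io K f) a b g) (hg0 : ∃ j, g j ≠ 0) :
    OnConic X f := by
  have hne : dL K (dL K (io K f)) ≠ 0 := by
    rw [dL_coe, dL_coe]
    intro h
    exact hf (HahnSeries.ofPowerSeries_injective (by rw [h, map_zero]))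
  have hx : dL K (io K X) = 1 := by rw [dL_coe, dX_X, map_one]
  obtain ⟨c, hc0, hcδ, hc⟩ := pair_conic (dL K) hx (inv_mul_cancel₀ hne) hg hg0
  have hci : ∀ i, c i = io K (C ((c i).coeff 0)) := fun i => const_of_dL (hcδ i)
  refine ⟨fun i => (c i).coeff 0, ?_, ?_⟩
  · intro h0
    refine hc0 ?_
    funext i
    rw [hci i, show (c i).coeff 0 = 0 from congrFun h0 i, map_zero, map_zero]
    rfl
  · refine HahnSeries.ofPowerSeries_injective (Γ := ℤ) ?_
    rw [map_zero, ← hc]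
    simp only [map_add, map_mul, map_pow]
    rw [← hci 0, ← hci 1, ← hci 2, ← hci 3, ← hci 4, ← hci 5]

end Pool.Agent.Lib.MP_50ed31_mp
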