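import Pool.Agent.Lib.MP_50ed31_mp.Field

/-!
MP_50ed31_mp, one variable.  Laurent series.
-/

open PowerSeries Finset Module
open scoped Nat LaurentSeries

namespace Pool.Agent.Lib.MP_50ed31_mp

variable {K : Type*} [Field K] [CharZero K]

theorem dL_apply (p : K⸨X⸩) : dL K p = LaurentSeries.derivative K p := rfl

theorem coeff_dL (p : K⸨X⸩) (n : ℤ) : (dL K p).coeff n = ((n : K) + 1) * p.coeff (n + 1) :=
  coeff_derivL p n

theorem coe_coeff (p : K⟦X⟧) (n : ℕ) : ((p : K⸨X⸩)).coeff (n : ℤ) = coeff n p :=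
  HahnSeries.ofPowerSeries_apply_coeff p n

theorem coe_coeff_neg (p : K⟦X⟧) {n : ℤ} (hn : n < 0) : ((p : K⸨X⸩)).coeff n = 0 := by
  rw [PowerSeries.coeff_coe, if_pos hn]

theorem dL_coe (p : K⟦X⟧) : dL K (HahnSeries.ofPowerSeries ℤ K p) =
    HahnSeries.ofPowerSeries ℤ K (dX K p) := by
  ext n
  rw [coeff_dL]
  rcases lt_trichotomy n (-1) with h | h | h
  · rw [coe_coeff_neg p (by omega), coe_coeff_neg _ (by omega), mul_zero]
  · subst h
    rw [coe_coeff_neg _ (by norm_num : (-1 : ℤ) < 0)]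
    push_cast
    ring
  · obtain ⟨m, rfl⟩ : ∃ m : ℕ, n = m := ⟨n.toNat, by omega⟩
    rw [show ((m : ℤ) + 1) = ((m + 1 : ℕ) : ℤ) by push_cast; ring, coe_coeff, coe_coeff, dX_apply,
      coeff_derivative]
    push_cast
    ring

/-- the constants -/
theorem const_of_dL {c : K⸨X⸩} (h : dL K c = 0) :
    c = HahnSeries.ofPowerSeries ℤ K (C (c.coeff 0)) := by
  ext n
  by_cases hn : n = 0
  · subst hn
    have := coe_coeff (C (c.coeff 0)) 0
    rw [Nat.cast_zero] at this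
    rw [this, coeff_C, if_pos rfl]
  · have h1 := congrArg (fun p : K⸨X⸩ => p.coeff (n - 1)) h
    simp only [coeff_dL, HahnSeries.coeff_zero, sub_add_cancel] at h1
    push_cast at h1
    rw [sub_add_cancel] at h1
    have h2 : c.coeff n = 0 := (mul_eq_zero.mp h1).resolve_left (by exact_mod_cast hn)
    rw [h2]
    rcases lt_or_ge n 0 with h3 | h3
    · rw [coe_coeff_neg _ h3]
    · obtain ⟨m, rfl⟩ : ∃ m : ℕ, n = m := ⟨n.toNat, by omega⟩
      rw [coe_coeff, coeff_C, if_neg (by exact_mod_cast hn)]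

end Pool.Agent.Lib.MP_50ed31_mp
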