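import Pool.Agent.Lib.MP_50ed31_mp.Orders

/-!
MP_50ed31_mp, one variable.  Growth of the spaces of pairs.
-/

open PowerSeries Finset Module
open scoped Nat Pointwise

namespace Pool.Agent.Lib.MP_50ed31_mp

variable {K : Type*} [Field K] [CharZero K]

/-- the space of pairs of degrees at most `a`, `b` -/
def Pr (w f : K⟦X⟧) (a b : ℕ) : Submodule K (ℕ → K⟦X⟧) where
  carrier := {g | IsPair (dX K) w f a b g}
  add_mem' := fun hg hh => hg.add hh
  zero_mem' := ⟨fun _ _ => rfl, fun l _ => by simp [ft, A_map_zero]⟩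
  smul_mem' := by
    intro c g hg
    have h := hg.const (c := C c) (dX_C c)
    have h2 : (fun j => C c * g j) = c • g := by
      funext j
      rw [Pi.smul_apply, smul_eq_C_mul]
    rwa [h2] at h

theorem mem_Pr {w f : K⟦X⟧} {a b : ℕ} {g : ℕ → K⟦X⟧} : g ∈ Pr w f a b ↔ IsPair (dX K) w f a b g :=
  Iff.rfl

theorem finrank_step {w f : K⟦X⟧} {a b : ℕ} [FiniteDimensional K (Pr w f (a + 1) (b + 1))]
    (t : Finset ℕ) (ht : ∀ m ∈ t, m ∈ Ords (Rch w f (a + 1) (b + 1))) :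
    finrank K (Pr w f a b) + t.card ≤ finrank K (Pr w f (a + 1) (b + 1)) := by
  let ev : Pr w f (a + 1) (b + 1) →ₗ[K] K⟦X⟧ :=
    { toFun := fun g => (g : ℕ → K⟦X⟧) 0
      map_add' := fun _ _ => rfl
      map_smul' := fun _ _ => rfl }
  have h1 := LinearMap.finrank_range_add_finrank_ker ev
  have h2 : t.card ≤ finrank K (LinearMap.range ev) := by
    refine card_le_of_ords t _ fun m hm => ?_
    obtain ⟨p, hp, hpo⟩ := ht m hm
    obtain ⟨g, hg, rfl⟩ := mem_Rch.mp hp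
    exact ⟨g 0, ⟨⟨g, hg⟩, rfl⟩, hpo⟩
  let sh : Pr w f a b →ₗ[K] LinearMap.ker ev :=
    { toFun := fun g => ⟨⟨prev (g : ℕ → K⟦X⟧), g.2.prev⟩, by
        rw [LinearMap.mem_ker]; rfl⟩
      map_add' := fun g h => by
        refine Subtype.ext (Subtype.ext ?_)
        funext j
        rcases j with _ | j
        · show (0 : K⟦X⟧) = 0 + 0
          rw [add_zero]
        · rfl
      map_smul' := fun c g => by
        refine Subtype.ext (Subtype.ext ?_)
        funext j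
        rcases j with _ | j
        · show (0 : K⟦X⟧) = c • 0
          rw [smul_zero]
        · rfl }
  have hinj : Function.Injective sh := by
    intro g h hgh
    have h3 : prev (g : ℕ → K⟦X⟧) = prev (h : ℕ → K⟦X⟧) :=
      congrArg (fun z : LinearMap.ker ev => ((z : Pr w f (a + 1) (b + 1)) : ℕ → K⟦X⟧)) hgh
    refine Subtype.ext ?_
    funext j
    exact congrFun h3 (j + 1)
  have h3 := LinearMap.finrank_le_finrank_of_injective hinj
  omega

omit [CharZero K] in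
theorem Ords_mono {V W : Submodule K K⟦X⟧} (h : V ≤ W) : Ords V ⊆ Ords W := by
  rintro m ⟨p, hp, hpo⟩
  exact ⟨p, h hp, hpo⟩

theorem Rch_mono {w f : K⟦X⟧} {a b a' b' : ℕ} (ha : a ≤ a') (hb : b ≤ b') :
    Rch w f a b ≤ Rch w f a' b' := by
  rintro p ⟨g, hg, rfl⟩
  exact ⟨g, hg.mono ha hb, rfl⟩

/-- quadratic growth -/
theorem finrank_lower {w f : K⟦X⟧} (hw : w * dX K (dX K f) = 1) {s s' : Finset ℕ}
    (hs : s.card = 6) (hs' : s'.card = 6) (hsG : ∀ m ∈ s, m ∈ Ords (Gen X f 2))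
    (hsG' : ∀ m ∈ s', m ∈ Ords (Gen (dX K f) (f - X * dX K f) 2)) {c : ℕ}
    (hc : ∃ p ∈ Rch w f c c, p ≠ 0) (hfin : ∀ c, FiniteDimensional K (Pr w f c c)) (n : ℕ) :
    (10 * n + 2) * (n + 1) ≤ finrank K (Pr w f (c + 2 * n + 1) (c + 2 * n + 1)) := by
  induction n with
  | zero =>
    have := hfin (c + 1)
    have := hfin c
    obtain ⟨t, ht, htG⟩ := Rch_ords hw hs hs' hsG hsG' hc 0
    have h1 := finrank_step (a := c) (b := c) t fun m hm =>
      Ords_mono (Rch_mono (by omega) (by omega)) (htG m hm)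
    have h2 : 1 ≤ finrank K (Pr w f c c) := by
      obtain ⟨p, ⟨g, hg, rfl⟩, hp0⟩ := hc
      have : Nontrivial (Pr w f c c) :=
        ⟨⟨⟨g, hg⟩, 0, fun h => hp0 (congrFun (congrArg Subtype.val h) 0)⟩⟩
      exact finrank_pos
    show (10 * 0 + 2) * (0 + 1) ≤ finrank K (Pr w f (c + 1) (c + 1))
    omega
  | succ n ih =>
    have := hfin (c + 2 * n + 1 + 1)
    have := hfin (c + 2 * n + 1 + 1 + 1)
    obtain ⟨t, ht, htG⟩ := Rch_ords hw hs hs' hsG hsG' hc (n + 1)
    have h1 := finrank_step (a := c + 2 * n + 1) (b := c + 2 * n + 1) t fun m hm =>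
      Ords_mono (Rch_mono (by omega) (by omega)) (htG m hm)
    have h2 := finrank_step (a := c + 2 * n + 1 + 1) (b := c + 2 * n + 1 + 1) t fun m hm =>
      Ords_mono (Rch_mono (by omega) (by omega)) (htG m hm)
    rw [show c + 2 * (n + 1) + 1 = c + 2 * n + 1 + 1 + 1 by ring]
    nlinarith

/-- the growth contradicts the upper bound -/
theorem no_growth {w f : K⟦X⟧} (hw : w * dX K (dX K f) = 1) {s s' : Finset ℕ}
    (hs : s.card = 6) (hs' : s'.card = 6) (hsG : ∀ m ∈ s, m ∈ Ords (Gen X f 2))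
    (hsG' : ∀ m ∈ s', m ∈ Ords (Gen (dX K f) (f - X * dX K f) 2)) {c : ℕ}
    (hc : ∃ p ∈ Rch w f c c, p ≠ 0)
    (hfin : ∀ c, FiniteDimensional K (Pr w f c c) ∧ finrank K (Pr w f c c) ≤ 2 * (c + 1) ^ 2) :
    False := by
  have h1 := finrank_lower hw hs hs' hsG hsG' hc (fun c => (hfin c).1) (5 * c + 5)
  have h2 := (hfin (c + 2 * (5 * c + 5) + 1)).2
  nlinarith

end Pool.Agent.Lib.MP_50ed31_mp
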