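import Pool.Agent.Lib.MP_50ed31_mp.Conic

/-!
MP_50ed31_mp, one variable.  The equation `A_1 [f,g] = 0`.
-/

open PowerSeries Finset Module
open scoped Nat

namespace Pool.Agent.Lib.MP_50ed31_mp

section A1

variable {R : Type*} [CommRing R] [Algebra ℚ R] {δ : Derivation ℚ R R}

theorem vertex_pow_coeff' (f : R) (s b : ℕ) (hb : b < 3 * s) :
    coeff b (vertex δ f ^ s) = 0 := by
  have h1 : (X : R⟦X⟧) ^ 3 ∣ vertex δ f := by
    rw [X_pow_dvd_iff]
    intro m hm
    rw [vertex, coeff_mk, if_pos hm]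
  have h2 : (X : R⟦X⟧) ^ (3 * s) ∣ vertex δ f ^ s := by
    rw [pow_mul]
    exact pow_dvd_pow_of_dvd h1 s
  exact X_pow_dvd_iff.mp h2 b hb

/-- `A_1` is a differential operator of order two -/
theorem A_one (w f g : R) : A δ w f g 1 = -(cq R (1 / 2) * w * δ (δ g)) +
    gauss w 2 * coeff 3 (vertex δ f) * δ g +
    (gauss w 2 * coeff 4 (vertex δ f) + cq R (1 / 2) * (gauss w 3 * coeff 6 (vertex δ f ^ 2))) * g := by
  have h1 : coeff 4 (taylor δ g * vertex δ f) = g * coeff 4 (vertex δ f) + δ g * coeff 3 (vertex δ f) := by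
    rw [coeff_mul, Finset.Nat.sum_antidiagonal_eq_sum_range_succ_mk]
    have h0 : ∀ b < 3, coeff b (vertex δ f) = 0 := fun b hb => by
      have := vertex_pow_coeff' (δ := δ) f 1 b (by omega)
      rwa [pow_one] at this
    simp only [sum_range_succ, sum_range_zero]
    rw [h0 (4 - 2) (by norm_num), h0 (4 - 3) (by norm_num), h0 (4 - 4) (by norm_num),
      coeff_taylor, coeff_taylor]
    norm_num
  have h2 : coeff 6 (taylor δ g * vertex δ f ^ 2) = g * coeff 6 (vertex δ f ^ 2) := by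
    rw [coeff_mul, Finset.Nat.sum_antidiagonal_eq_sum_range_succ_mk, sum_range_succ',
      sum_eq_zero fun i hi => by rw [vertex_pow_coeff' f 2 _ (by rw [mem_range] at hi; omega), mul_zero],
      zero_add, coeff_taylor]
    norm_num
  have h3 : coeff 2 (taylor δ g) = cq R (1 / 2) * δ (δ g) := by
    rw [coeff_taylor]
    norm_num
  rw [A]
  simp only [mul_one, sum_range_succ, sum_range_zero, pow_zero, pow_one, Nat.reduceAdd, Nat.reduceMul,
    add_zero, zero_add]
  rw [h1, h2, h3]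
  have h4 : gauss w 1 = -w := by
    rw [gauss]
    norm_num [cq]
  have h5 : cq R ((0 ! : ℕ) : ℚ)⁻¹ = 1 := by norm_num [cq]
  have h6 : cq R ((1 ! : ℕ) : ℚ)⁻¹ = 1 := by norm_num [cq]
  have h7 : cq R ((2 ! : ℕ) : ℚ)⁻¹ = cq R (1 / 2) := by norm_num
  rw [h4, h5, h6, h7]
  ring

end A1

section ode

variable {K : Type*} [Field K] [CharZero K]

/-- coefficients of a solution of `g'' = P g' + Q g` -/
noncomputable def odeSol (P Q : ℕ → K) : ℕ → K
  | 0 => 1
  | 1 => 0
  | n + 2 => (∑ i : Fin (n + 1), (P (n - i) * (odeSol P Q (i + 1) * ((i : ℕ) + 1 : K)) +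
      Q (n - i) * odeSol P Q i)) / (((n : K) + 1 + 1) * ((n : K) + 1))
  termination_by n => n
  decreasing_by all_goals omega

theorem ode (P Q : K⟦X⟧) : ∃ g : K⟦X⟧, g ≠ 0 ∧ dX K (dX K g) = P * dX K g + Q * g := by
  refine ⟨PowerSeries.mk (odeSol (fun n => coeff n P) fun n => coeff n Q), ?_, ?_⟩
  · intro h
    have h1 := congrArg (coeff 0) h
    rw [coeff_mk, odeSol, map_zero] at h1
    exact one_ne_zero h1
  · ext1 n
    rw [dX_apply, dX_apply, coeff_derivative, coeff_derivative, coeff_mk, map_add, mul_comm P,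
      mul_comm Q, coeff_mul, coeff_mul, Finset.Nat.sum_antidiagonal_eq_sum_range_succ_mk,
      Finset.Nat.sum_antidiagonal_eq_sum_range_succ_mk, ← sum_add_distrib]
    rw [show n + 1 + 1 = n + 2 by ring, odeSol]
    have h1 : ((n : K) + 1) ≠ 0 := by exact_mod_cast Nat.succ_ne_zero n
    have h2 : ((n : K) + 1 + 1) ≠ 0 := by exact_mod_cast Nat.succ_ne_zero (n + 1)
    push_cast
    rw [div_mul_eq_mul_div, div_mul_eq_mul_div, mul_assoc, mul_div_assoc, div_self (mul_ne_zero h2 h1),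
      mul_one, Fin.sum_univ_eq_sum_range (fun i => coeff (n - i) P *
        (odeSol (fun n => coeff n P) (fun n => coeff n Q) (i + 1) * ((i : ℕ) + 1 : K)) +
        coeff (n - i) Q * odeSol (fun n => coeff n P) (fun n => coeff n Q) i) (n + 1)]
    refine sum_congr rfl fun i _ => ?_
    simp only [coeff_derivative, coeff_mk]
    ring

/-- a nonzero solution of `A_1 [f,g] = 0` -/
theorem exists_A_one {w f : K⟦X⟧} (hw : w * dX K (dX K f) = 1) :
    ∃ g : K⟦X⟧, g ≠ 0 ∧ A (dX K) w f g 1 = 0 := by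
  obtain ⟨g, hg, h⟩ := ode (2 * dX K (dX K f) * (gauss w 2 * coeff 3 (vertex (dX K) f)))
    (2 * dX K (dX K f) * (gauss w 2 * coeff 4 (vertex (dX K) f) +
      cq K⟦X⟧ (1 / 2) * (gauss w 3 * coeff 6 (vertex (dX K) f ^ 2))))
  refine ⟨g, hg, ?_⟩
  rw [A_one, h]
  have ht := half_two (R := K⟦X⟧)
  set p := gauss w 2 * coeff 3 (vertex (dX K) f)
  set q := (gauss w 2 * coeff 4 (vertex (dX K) f) +
      cq K⟦X⟧ (1 / 2) * (gauss w 3 * coeff 6 (vertex (dX K) f ^ 2)))
  linear_combination (-(p * dX K g + q * g)) * (cq K⟦X⟧ (1 / 2) * 2 * hw + ht)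

end ode

end Pool.Agent.Lib.MP_50ed31_mp
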