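import Pool.Agent.Lib.MP_50ed31_mp.Reach

/-!
MP_50ed31_mp, one variable.  Orders of power series in a subspace.
-/

open PowerSeries Finset Module
open scoped Nat Pointwise

namespace Pool.Agent.Lib.MP_50ed31_mp

variable {K : Type*} [Field K]

/-- the orders of the nonzero elements of a subspace -/
def Ords (W : Submodule K K⟦X⟧) : Set ℕ := {n | ∃ p ∈ W, p.order = n}

/-- the power series of order at least `n` -/
def Dv (K : Type*) [Field K] (n : ℕ) : Submodule K K⟦X⟧ where
  carrier := {p | ∀ i < n, coeff i p = 0}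
  add_mem' := by
    intro p q hp hq i hi
    rw [map_add, hp i hi, hq i hi, add_zero]
  zero_mem' := fun i _ => by simp
  smul_mem' := by
    intro c p hp i hi
    rw [PowerSeries.coeff_smul, hp i hi, smul_zero]

theorem mem_Dv {n : ℕ} {p : K⟦X⟧} : p ∈ Dv K n ↔ ∀ i < n, coeff i p = 0 := Iff.rfl

/-- elements of distinct orders are independent -/
theorem card_le_of_ords (s : Finset ℕ) : ∀ (W : Submodule K K⟦X⟧) [FiniteDimensional K W],
    (∀ m ∈ s, m ∈ Ords W) → s.card ≤ finrank K W := by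
  induction s using Finset.induction_on_min with
  | empty => intro W _ _; simp
  | insert a s ha ih =>
    intro W _ hW
    have has : a ∉ s := fun h => lt_irrefl _ (ha a h)
    obtain ⟨p, hp, hpo⟩ := hW a (mem_insert_self _ _)
    have hpo' := order_eq_nat.mp hpo
    have hlt : W ⊓ Dv K (a + 1) < W := by
      refine lt_of_le_of_ne inf_le_left fun h => ?_
      have h2 : p ∈ W ⊓ Dv K (a + 1) := by rw [h]; exact hp
      exact hpo'.1 ((mem_Dv.mp h2.2) a (by omega))
    have h3 := Submodule.finrank_lt_finrank_of_lt hlt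
    have : FiniteDimensional K (W ⊓ Dv K (a + 1) : Submodule K K⟦X⟧) :=
      Submodule.finiteDimensional_inf_left W _
    have h4 := ih (W ⊓ Dv K (a + 1)) fun m hm => by
      obtain ⟨q, hq, hqo⟩ := hW m (mem_insert_of_mem hm)
      refine ⟨q, ⟨hq, fun i hi => ?_⟩, hqo⟩
      exact (order_eq_nat.mp hqo).2 i (by have := ha m hm; omega)
    rw [card_insert_of_notMem has]
    omega

/-- an `n`-dimensional space has `n` orders -/
theorem exists_ords (W : Submodule K K⟦X⟧) (n : ℕ) (hn : n ≤ finrank K W) :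
    ∃ s : Finset ℕ, s.card = n ∧ ∀ m ∈ s, m ∈ Ords W := by
  by_cases hfin : (Ords W).Finite
  · suffices h : n ≤ hfin.toFinset.card by
      obtain ⟨s, hs, hc⟩ := Finset.exists_subset_card_eq h
      exact ⟨s, hc, fun m hm => hfin.mem_toFinset.mp (hs hm)⟩
    refine hn.trans ?_
    let ev : W →ₗ[K] (hfin.toFinset → K) :=
      { toFun := fun p m => coeff (m : ℕ) (p : K⟦X⟧)
        map_add' := fun p q => by funext m; simp
        map_smul' := fun c p => by funext m; simp }
    have hinj : Function.Injective ev := by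
      rw [← LinearMap.ker_eq_bot, LinearMap.ker_eq_bot']
      rintro ⟨p, hp⟩ h
      by_contra hne
      have hp0 : p ≠ 0 := fun h0 => hne (by simp [h0])
      have ho : p.order = (p.order.toNat : ℕ) := by
        rw [ENat.natCast_toNat (by rwa [Ne, order_eq_top])]
      have hm : p.order.toNat ∈ hfin.toFinset := hfin.mem_toFinset.mpr ⟨p, hp, ho⟩
      have h1 := congrFun h ⟨_, hm⟩
      exact (order_eq_nat.mp ho).1 h1
    have h := LinearMap.finrank_le_finrank_of_injective hinj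
    rwa [Module.finrank_fintype_fun_eq_card, Fintype.card_coe] at h
  · obtain ⟨s, hs, hc⟩ := Set.Infinite.exists_subset_card_eq hfin n
    exact ⟨s, hc, fun m hm => hs hm⟩

theorem ords_mul {p q : K⟦X⟧} {m n : ℕ} (hp : p.order = m) (hq : q.order = n) :
    (p * q).order = ((m + n : ℕ) : ℕ∞) := by
  rw [order_mul, hp, hq]; rfl

variable [CharZero K]

/-- many orders in `Gen u v (2 n)` -/
theorem Gen_ords {u v : K⟦X⟧} {s : Finset ℕ} (hs : s.card = 6)
    (hsG : ∀ m ∈ s, m ∈ Ords (Gen u v 2)) (n : ℕ) :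
    ∃ t : Finset ℕ, 5 * n + 1 ≤ t.card ∧ ∀ m ∈ t, m ∈ Ords (Gen u v (2 * n)) := by
  induction n with
  | zero =>
    refine ⟨{0}, by simp, fun m hm => ?_⟩
    rw [mem_singleton.mp hm]
    exact ⟨1, one_mem_Gen _ _ _, by simp⟩
  | succ n ih =>
    obtain ⟨t, ht, htG⟩ := ih
    have hsn : s.Nonempty := card_pos.mp (by omega)
    have htn : t.Nonempty := card_pos.mp (by omega)
    have h := cauchy_davenport_add_of_linearOrder_isCancelAdd hsn htn
    refine ⟨s + t, by omega, fun m hm => ?_⟩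
    obtain ⟨i, hi, j, hj, rfl⟩ := Finset.mem_add.mp hm
    obtain ⟨p, hp, hpo⟩ := hsG i hi
    obtain ⟨q, hq, hqo⟩ := htG j hj
    refine ⟨p * q, ?_, ords_mul hpo hqo⟩
    have := Gen_mul hp hq
    rwa [show 2 + 2 * n = 2 * (n + 1) by ring] at this

/-- many orders among the coefficients of `ħ^0` of the pairs -/
theorem Rch_ords {w f : K⟦X⟧} (hw : w * dX K (dX K f) = 1) {s s' : Finset ℕ} (hs : s.card = 6)
    (hs' : s'.card = 6) (hsG : ∀ m ∈ s, m ∈ Ords (Gen X f 2))
    (hsG' : ∀ m ∈ s', m ∈ Ords (Gen (dX K f) (f - X * dX K f) 2)) {c : ℕ}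
    (hc : ∃ p ∈ Rch w f c c, p ≠ 0) (n : ℕ) :
    ∃ t : Finset ℕ, 10 * n + 1 ≤ t.card ∧ ∀ m ∈ t, m ∈ Ords (Rch w f (c + 2 * n) (c + 2 * n)) := by
  obtain ⟨p, hp, hp0⟩ := hc
  have ho : p.order = (p.order.toNat : ℕ) := by
    rw [ENat.natCast_toNat (by rwa [Ne, order_eq_top])]
  obtain ⟨t, ht, htG⟩ := Gen_ords hs hsG n
  obtain ⟨t', ht', htG'⟩ := Gen_ords hs' hsG' n
  have htn : t.Nonempty := card_pos.mp (by omega)
  have htn' : t'.Nonempty := card_pos.mp (by omega)
  have h := cauchy_davenport_add_of_linearOrder_isCancelAdd htn htn'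
  refine ⟨(t + t').map ⟨fun i => i + p.order.toNat, fun i j hij => by simpa using hij⟩, ?_, ?_⟩
  · rw [card_map]; omega
  · intro m hm
    obtain ⟨k, hk, rfl⟩ := Finset.mem_map.mp hm
    obtain ⟨i, hi, j, hj, rfl⟩ := Finset.mem_add.mp hk
    obtain ⟨q, hq, hqo⟩ := htG i hi
    obtain ⟨r, hr, hro⟩ := htG' j hj
    refine ⟨r * (q * p), Rch_mul hw hp hq hr, ?_⟩
    rw [order_mul, order_mul, hqo, hro, ho]
    show (j : ℕ∞) + ((i : ℕ∞) + _) = ((i + j + p.order.toNat : ℕ) : ℕ∞)
    push_cast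
    ring

end Pool.Agent.Lib.MP_50ed31_mp
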