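import Pool.Agent.Lib.MP_50ed31_mp.Wick

/-!
MP_50ed31_mp, one variable.  Pairs `(g, ĝ)` of polynomials in `ħ` and the operators acting on them.
-/

open PowerSeries Finset
open scoped Nat

namespace Pool.Agent.Lib.MP_50ed31_mp

variable {R : Type*} [CommRing R] [Algebra ℚ R] (δ : Derivation ℚ R R) (w f : R)

/-- For `g = ∑ j, g j * ħ^j`: the coefficient of `ħ^l` in the formal Fourier transform of
`g e^(f/ħ)`, that is `∑ j ≤ l, A_(l-j)[f, g j]` -/
noncomputable def ft (g : ℕ → R) (l : ℕ) : R := ∑ j ∈ range (l + 1), A δ w f (g j) (l - j)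

/-- `g` is a polynomial in `ħ` of degree at most `a` whose formal Fourier transform is a polynomial
in `ħ` of degree at most `b` -/
def IsPair (a b : ℕ) (g : ℕ → R) : Prop :=
  (∀ j, a < j → g j = 0) ∧ ∀ l, b < l → ft δ w f g l = 0

/-- multiplication by `ħ` -/
def prev (g : ℕ → R) : ℕ → R
  | 0 => 0
  | j + 1 => g j

variable {δ w f}

theorem A_map_zero (k : ℕ) : A δ w f 0 k = 0 := by
  have h := A_add (δ := δ) (w := w) (f := f) 0 0 k
  rw [add_zero] at h
  linear_combination -h

theorem A_const {c : R} (hc : δ c = 0) (g : R) (k : ℕ) :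
    A δ w f (c * g) k = c * A δ w f g k := by
  have h : ∀ (m : ℕ) (p : R), (⇑δ)^[m] (c * p) = c * (⇑δ)^[m] p := by
    intro m
    induction m with
    | zero => intro p; rfl
    | succ m ih =>
      intro p
      rw [Function.iterate_succ_apply, Derivation.leibniz, hc, smul_zero, add_zero, smul_eq_mul, ih,
        Function.iterate_succ_apply]
  have ht : taylor δ (c * g) = C c * taylor δ g := by
    ext1 m
    rw [coeff_C_mul, coeff_taylor, coeff_taylor, h]
    ring
  rw [A_eq, ht, W_C_mul, A_eq]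

theorem A_neg (g : R) (k : ℕ) : A δ w f (-g) k = -A δ w f g k := by
  have h := A_const (δ := δ) (w := w) (f := f) (c := -1) (by simp) g k
  rw [neg_one_mul, neg_one_mul] at h
  exact h

theorem ft_zero (g : ℕ → R) : ft δ w f g 0 = g 0 := by
  simp [ft, A_zero]

theorem ft_succ (g : ℕ → R) (l : ℕ) :
    ft δ w f g (l + 1) = g (l + 1) + ∑ j ∈ range (l + 1), A δ w f (g j) ((l - j) + 1) := by
  unfold ft
  rw [sum_range_succ, Nat.sub_self, A_zero, add_comm]
  congr 1
  refine sum_congr rfl fun j hj => ?_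
  rw [mem_range] at hj
  rw [show l + 1 - j = (l - j) + 1 by omega]

theorem ft_add (g h : ℕ → R) (l : ℕ) :
    ft δ w f (fun j => g j + h j) l = ft δ w f g l + ft δ w f h l := by
  unfold ft
  rw [← sum_add_distrib]
  exact sum_congr rfl fun j _ => A_add _ _ _

theorem ft_const {c : R} (hc : δ c = 0) (g : ℕ → R) (l : ℕ) :
    ft δ w f (fun j => c * g j) l = c * ft δ w f g l := by
  unfold ft
  rw [mul_sum]
  exact sum_congr rfl fun j _ => A_const hc _ _

theorem ft_prev (g : ℕ → R) (l : ℕ) : ft δ w f (prev g) (l + 1) = ft δ w f g l := by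
  unfold ft
  rw [sum_range_succ']
  rw [show prev g 0 = 0 from rfl, A_map_zero, add_zero]
  refine sum_congr rfl fun j _ => ?_
  rw [show prev g (j + 1) = g j from rfl, Nat.add_sub_add_right]

/-- `ħ`-weighted version of `ft_prev` -/
theorem ft_prev_weight (c : ℕ → R) (hc : ∀ j, δ (c j) = 0) (g : ℕ → R) (l : ℕ) :
    ft δ w f (prev fun j => c j * g j) (l + 1) =
      ∑ j ∈ range (l + 1), c j * A δ w f (g j) (l - j) := by
  rw [ft_prev]
  unfold ft
  exact sum_congr rfl fun j _ => A_const (hc j) _ _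

theorem Dy_add (p q : R) : Dy δ w f (p + q) = Dy δ w f p + Dy δ w f q := by
  unfold Dy; rw [map_add]; ring

theorem Dy_sum {ι : Type*} (s : Finset ι) (p : ι → R) :
    Dy δ w f (∑ i ∈ s, p i) = ∑ i ∈ s, Dy δ w f (p i) := by
  classical
  induction s using Finset.induction_on with
  | empty => simp [Dy]
  | insert i s hi ih => rw [sum_insert hi, sum_insert hi, Dy_add, ih]

theorem Dy_mul (p q : R) : Dy δ w f (p * q) = p * Dy δ w f q - w * δ p * q := by
  unfold Dy; rw [Derivation.leibniz, smul_eq_mul, smul_eq_mul]; ring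

section ops

variable {x : R}

/-- multiplication by `x` -/
theorem ft_x (hx : δ x = 1) (hw : w * δ (δ f) = 1) (g : ℕ → R) (l : ℕ) :
    ft δ w f (fun j => x * g j) (l + 1) = x * ft δ w f g (l + 1) + Dy δ w f (ft δ w f g l) := by
  rw [ft_succ, ft_succ]
  simp only [A_x hx hw]
  rw [sum_add_distrib, ← mul_sum, ft, Dy_sum]
  ring

theorem ft_f (hw : w * δ (δ f) = 1) (g : ℕ → R) (l : ℕ) :
    ft δ w f (fun j => f * g j) (l + 1) = f * ft δ w f g (l + 1) + δ f * Dy δ w f (ft δ w f g l) -
      ∑ j ∈ range (l + 1), (((l - j : ℕ) : R) + cq R (1 / 2)) * A δ w f (g j) (l - j) := by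
  rw [ft_succ, ft_succ]
  simp only [A_f hw]
  rw [sum_sub_distrib, sum_add_distrib, ← mul_sum, ← mul_sum, ft, Dy_sum]
  ring

/-- multiplication by `-y` -/
theorem ft_d (hw : w * δ (δ f) = 1) (g : ℕ → R) (l : ℕ) :
    ft δ w f (fun j => δ f * g j + prev (fun j => δ (g j)) j) l = δ f * ft δ w f g l := by
  rcases l with _ | l
  · rw [ft_zero, ft_zero]
    simp [prev]
  · rw [ft_add, ft_prev, ft_succ, ft_succ, mul_add, mul_sum, ft, add_assoc, ← sum_add_distrib]
    congr 1
    exact sum_congr rfl fun j _ => A_d hw _ _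

/-- the coefficients `c` are constants -/
theorem d_const_aux (a : R) (ha : δ a = 0) (j : ℕ) : δ (a - (j : R)) = 0 := by
  rw [map_sub, ha, Derivation.map_natCast, sub_zero]

/-- the operator `f + ħ (a - ħ ∂_ħ)` -/
theorem ft_F (hw : w * δ (δ f) = 1) (a : ℕ) (g : ℕ → R) (l : ℕ) :
    ft δ w f (fun j => f * g j + prev (fun j => ((a : R) - (j : R)) * g j) j) (l + 1) =
      f * ft δ w f g (l + 1) + δ f * Dy δ w f (ft δ w f g l) +
        ((a : R) - (l : R) - cq R (1 / 2)) * ft δ w f g l := by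
  rw [ft_add, ft_f hw, ft_prev_weight _ (fun j => d_const_aux _ (Derivation.map_natCast δ a) j)]
  have h : ∑ j ∈ range (l + 1), ((a : R) - (j : R)) * A δ w f (g j) (l - j) -
      ∑ j ∈ range (l + 1), (((l - j : ℕ) : R) + cq R (1 / 2)) * A δ w f (g j) (l - j) =
      ((a : R) - (l : R) - cq R (1 / 2)) * ft δ w f g l := by
    rw [← sum_sub_distrib, ft, mul_sum]
    refine sum_congr rfl fun j hj => ?_
    rw [mem_range] at hj
    rw [Nat.cast_sub (by omega)]
    ring
  linear_combination h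

/-- the operator `∂_0` -/
theorem ft_D0 (hx : δ x = 1) (hw : w * δ (δ f) = 1) (b : ℕ) (g : ℕ → R) (l : ℕ) :
    ft δ w f (fun j => (f * g j + prev (fun j => ((b : R) - cq R (1 / 2) - (j : R)) * g j) j) +
        (-x) * (δ f * g j + prev (fun j => δ (g j)) j)) (l + 1) =
      (f - x * δ f) * ft δ w f g (l + 1) + ((b : R) - (l : R)) * ft δ w f g l := by
  have hc : ∀ j : ℕ, δ ((b : R) - cq R (1 / 2) - (j : R)) = 0 := fun j =>
    d_const_aux _ (by rw [map_sub, dcq, Derivation.map_natCast, sub_zero]) j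
  rw [ft_add, ft_add, ft_f hw, ft_prev_weight _ hc]
  have h1 : ft δ w f (fun j => (-x) * (δ f * g j + prev (fun j => δ (g j)) j)) (l + 1) =
      -(x * (δ f * ft δ w f g (l + 1)) + Dy δ w f (δ f * ft δ w f g l)) := by
    have h2 := ft_x hx hw (fun j => δ f * g j + prev (fun j => δ (g j)) j) l
    rw [ft_d hw, ft_d hw] at h2
    rw [← h2]
    have h3 := ft_const (δ := δ) (w := w) (f := f) (c := -1) (by simp)
      (fun j => x * (δ f * g j + prev (fun j => δ (g j)) j)) (l + 1)
    rw [neg_one_mul] at h3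
    rw [← h3]
    congr 1
    funext j
    ring
  rw [h1, Dy_mul]
  have h : ∑ j ∈ range (l + 1), ((b : R) - cq R (1 / 2) - (j : R)) * A δ w f (g j) (l - j) -
      ∑ j ∈ range (l + 1), (((l - j : ℕ) : R) + cq R (1 / 2)) * A δ w f (g j) (l - j) =
      ((b : R) - (l : R) - 1) * ft δ w f g l := by
    rw [← sum_sub_distrib, ft, mul_sum]
    refine sum_congr rfl fun j hj => ?_
    rw [mem_range] at hj
    rw [Nat.cast_sub (by omega)]
    linear_combination (-A δ w f (g j) (l - j)) * half_two (R := R)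
  linear_combination h + ft δ w f g l * hw

end ops

end Pool.Agent.Lib.MP_50ed31_mp
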