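import Pool.Agent.Lib.MP_50ed31_mp.Pairs

/-!
MP_50ed31_mp, one variable.  The coefficients of `ħ^0` of the pairs.
-/

open PowerSeries Finset
open scoped Nat

namespace Pool.Agent.Lib.MP_50ed31_mp

section general

variable {R : Type*} [CommRing R] [Algebra ℚ R] {δ : Derivation ℚ R R} {w f x : R}

theorem IsPair.mono {a b a' b' : ℕ} {g : ℕ → R} (h : IsPair δ w f a b g) (ha : a ≤ a')
    (hb : b ≤ b') : IsPair δ w f a' b' g :=
  ⟨fun j hj => h.1 j (by omega), fun l hl => h.2 l (by omega)⟩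

theorem IsPair.add {a b : ℕ} {g h : ℕ → R} (hg : IsPair δ w f a b g) (hh : IsPair δ w f a b h) :
    IsPair δ w f a b (fun j => g j + h j) := by
  refine ⟨fun j hj => ?_, fun l hl => ?_⟩
  · show g j + h j = 0
    rw [hg.1 j hj, hh.1 j hj, add_zero]
  · rw [ft_add, hg.2 l hl, hh.2 l hl, add_zero]

theorem IsPair.const {a b : ℕ} {g : ℕ → R} (hg : IsPair δ w f a b g) {c : R} (hc : δ c = 0) :
    IsPair δ w f a b (fun j => c * g j) := by
  refine ⟨fun j hj => ?_, fun l hl => ?_⟩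
  · show c * g j = 0
    rw [hg.1 j hj, mul_zero]
  · rw [ft_const hc, hg.2 l hl, mul_zero]

theorem IsPair.prev {a b : ℕ} {g : ℕ → R} (hg : IsPair δ w f a b g) :
    IsPair δ w f (a + 1) (b + 1) (prev g) := by
  refine ⟨fun j hj => ?_, fun l hl => ?_⟩
  · rcases j with _ | j
    · rfl
    · exact hg.1 j (by omega)
  · rcases l with _ | l
    · omega
    · rw [ft_prev]
      exact hg.2 l (by omega)

/-- if the coefficient of `ħ^0` vanishes one can divide by `ħ` -/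
theorem IsPair.shift {a b : ℕ} {g : ℕ → R} (hg : IsPair δ w f (a + 1) (b + 1) g) (h0 : g 0 = 0) :
    IsPair δ w f a b (fun j => g (j + 1)) := by
  have h : g = Pool.Agent.Lib.MP_50ed31_mp.prev (fun j => g (j + 1)) := by
    funext j
    rcases j with _ | j
    · exact h0
    · rfl
  refine ⟨fun j hj => hg.1 (j + 1) (by omega), fun l hl => ?_⟩
  have h2 := hg.2 (l + 1) (by omega)
  rw [h, ft_prev] at h2
  exact h2

theorem IsPair.mul_x (hx : δ x = 1) (hw : w * δ (δ f) = 1) {a b : ℕ} {g : ℕ → R}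
    (hg : IsPair δ w f a b g) : IsPair δ w f a (b + 1) (fun j => x * g j) := by
  refine ⟨fun j hj => ?_, fun l hl => ?_⟩
  · show x * g j = 0
    rw [hg.1 j hj, mul_zero]
  · rcases l with _ | l
    · omega
    · rw [ft_x hx hw, hg.2 _ (by omega), hg.2 _ (by omega)]
      simp [Dy]

theorem IsPair.mul_f (hw : w * δ (δ f) = 1) {a b : ℕ} {g : ℕ → R}
    (hg : IsPair δ w f a b g) : IsPair δ w f a (b + 1) (fun j => f * g j +
      Pool.Agent.Lib.MP_50ed31_mp.prev (fun j => ((a : R) - (j : R)) * g j) j) := by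
  refine ⟨fun j hj => ?_, fun l hl => ?_⟩
  · rcases j with _ | j
    · omega
    · show f * g (j + 1) + ((a : R) - (j : R)) * g j = 0
      rw [hg.1 (j + 1) hj, mul_zero, zero_add]
      by_cases h : j = a
      · rw [h, sub_self, zero_mul]
      · rw [hg.1 j (by omega), mul_zero]
  · rcases l with _ | l
    · omega
    · rw [ft_F hw, hg.2 _ (by omega), hg.2 _ (by omega)]
      simp [Dy]

theorem IsPair.mul_d (hw : w * δ (δ f) = 1) {a b : ℕ} {g : ℕ → R}
    (hg : IsPair δ w f a b g) : IsPair δ w f (a + 1) b (fun j => δ f * g j +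
      Pool.Agent.Lib.MP_50ed31_mp.prev (fun j => δ (g j)) j) := by
  refine ⟨fun j hj => ?_, fun l hl => ?_⟩
  · rcases j with _ | j
    · omega
    · show δ f * g (j + 1) + δ (g j) = 0
      rw [hg.1 (j + 1) (by omega), hg.1 j (by omega), mul_zero, map_zero, add_zero]
  · rw [ft_d hw, hg.2 l hl, mul_zero]

theorem IsPair.mul_0 (hx : δ x = 1) (hw : w * δ (δ f) = 1) {a b : ℕ} {g : ℕ → R}
    (hg : IsPair δ w f a b g) : IsPair δ w f (a + 1) b (fun j => (f * g j +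
        Pool.Agent.Lib.MP_50ed31_mp.prev (fun j => ((b : R) - cq R (1 / 2) - (j : R)) * g j) j) +
        (-x) * (δ f * g j + Pool.Agent.Lib.MP_50ed31_mp.prev (fun j => δ (g j)) j)) := by
  refine ⟨fun j hj => ?_, fun l hl => ?_⟩
  · rcases j with _ | j
    · omega
    · show (f * g (j + 1) + ((b : R) - cq R (1 / 2) - (j : R)) * g j) +
        (-x) * (δ f * g (j + 1) + δ (g j)) = 0
      rw [hg.1 (j + 1) (by omega), hg.1 j (by omega), map_zero]
      ring
  · rcases l with _ | l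
    · omega
    · rw [ft_D0 hx hw, hg.2 _ (by omega)]
      by_cases h : l = b
      · rw [h, sub_self]; ring
      · rw [hg.2 l (by omega)]; ring

end general

variable {K : Type*} [Field K] [CharZero K]

/-- the derivation `d/dx` over `ℚ` -/
noncomputable def dX (K : Type*) [Field K] [CharZero K] : Derivation ℚ K⟦X⟧ K⟦X⟧ :=
  (d⁄dX K).restrictScalars ℚ

theorem dX_apply (p : K⟦X⟧) : dX K p = d⁄dX K p := rfl

theorem dX_C (c : K) : dX K (C c) = 0 := derivative_C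

theorem dX_X : dX K X = 1 := derivative_X

/-- the coefficients of `ħ^0` of the pairs of degrees at most `a`, `b` -/
def Rch (w f : K⟦X⟧) (a b : ℕ) : Submodule K K⟦X⟧ where
  carrier := {p | ∃ g, IsPair (dX K) w f a b g ∧ g 0 = p}
  add_mem' := by
    rintro p q ⟨g, hg, rfl⟩ ⟨h, hh, rfl⟩
    exact ⟨_, hg.add hh, rfl⟩
  zero_mem' := ⟨fun _ => 0, ⟨fun _ _ => rfl, fun l _ => by simp [ft, A_map_zero]⟩, rfl⟩
  smul_mem' := by
    rintro c p ⟨g, hg, rfl⟩
    refine ⟨_, hg.const (c := C c) (dX_C c), ?_⟩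
    show C c * g 0 = c • g 0
    rw [smul_eq_C_mul]

theorem mem_Rch {w f : K⟦X⟧} {a b : ℕ} {p : K⟦X⟧} :
    p ∈ Rch w f a b ↔ ∃ g, IsPair (dX K) w f a b g ∧ g 0 = p := Iff.rfl

/-- polynomials of degree at most `l` in `u`, `v` -/
noncomputable def Gen (u v : K⟦X⟧) : ℕ → Submodule K K⟦X⟧
  | 0 => Submodule.span K {1}
  | l + 1 => Gen u v l ⊔ (Gen u v l).map (LinearMap.mulLeft K u) ⊔
      (Gen u v l).map (LinearMap.mulLeft K v)

theorem mem_Gen_succ {u v : K⟦X⟧} {l : ℕ} {p : K⟦X⟧} : p ∈ Gen u v (l + 1) ↔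
    ∃ a ∈ Gen u v l, ∃ b ∈ Gen u v l, ∃ c ∈ Gen u v l, p = a + u * b + v * c := by
  rw [Gen, Submodule.mem_sup]
  constructor
  · rintro ⟨y, hy, z, ⟨c, hc, rfl⟩, rfl⟩
    obtain ⟨a, ha, z, ⟨b, hb, rfl⟩, rfl⟩ := Submodule.mem_sup.mp hy
    exact ⟨a, ha, b, hb, c, hc, rfl⟩
  · rintro ⟨a, ha, b, hb, c, hc, rfl⟩
    exact ⟨a + u * b, Submodule.mem_sup.mpr ⟨a, ha, u * b, ⟨b, hb, rfl⟩, rfl⟩, v * c, ⟨c, hc, rfl⟩, rfl⟩

theorem one_mem_Gen (u v : K⟦X⟧) (l : ℕ) : (1 : K⟦X⟧) ∈ Gen u v l := by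
  induction l with
  | zero => exact Submodule.mem_span_singleton_self 1
  | succ l ih => exact mem_Gen_succ.mpr ⟨1, ih, 0, zero_mem _, 0, zero_mem _, by ring⟩

theorem Gen_mul {u v : K⟦X⟧} {l m : ℕ} {p q : K⟦X⟧} (hp : p ∈ Gen u v l) (hq : q ∈ Gen u v m) :
    p * q ∈ Gen u v (l + m) := by
  induction l generalizing p with
  | zero =>
    obtain ⟨c, rfl⟩ := Submodule.mem_span_singleton.mp hp
    rw [zero_add, smul_mul_assoc, one_mul]
    exact Submodule.smul_mem _ c hq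
  | succ l ih =>
    obtain ⟨a, ha, b, hb, c, hc, rfl⟩ := mem_Gen_succ.mp hp
    rw [show l + 1 + m = (l + m) + 1 by ring]
    exact mem_Gen_succ.mpr ⟨a * q, ih ha, b * q, ih hb, c * q, ih hc, by ring⟩

/-- a chain of submodules closed under multiplication by `1`, `u`, `v` -/
theorem Gen_act {u v : K⟦X⟧} (P : ℕ → Submodule K K⟦X⟧)
    (h1 : ∀ n, ∀ p ∈ P n, p ∈ P (n + 1)) (hu : ∀ n, ∀ p ∈ P n, u * p ∈ P (n + 1))
    (hv : ∀ n, ∀ p ∈ P n, v * p ∈ P (n + 1)) {l n : ℕ} {p q : K⟦X⟧} (hp : p ∈ P n)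
    (hq : q ∈ Gen u v l) : q * p ∈ P (n + l) := by
  induction l generalizing q with
  | zero =>
    obtain ⟨c, rfl⟩ := Submodule.mem_span_singleton.mp hq
    rw [add_zero, smul_mul_assoc, one_mul]
    exact Submodule.smul_mem _ c hp
  | succ l ih =>
    obtain ⟨a, ha, b, hb, c, hc, rfl⟩ := mem_Gen_succ.mp hq
    rw [show n + (l + 1) = (n + l) + 1 by ring, add_mul, add_mul, mul_assoc, mul_assoc]
    exact add_mem (add_mem (h1 _ _ (ih ha)) (hu _ _ (ih hb))) (hv _ _ (ih hc))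

section

variable {w f : K⟦X⟧}

theorem Rch_mul (hw : w * dX K (dX K f) = 1) {a b l : ℕ} {p q r : K⟦X⟧} (hp : p ∈ Rch w f a b)
    (hq : q ∈ Gen X f l) (hr : r ∈ Gen (dX K f) (f - X * dX K f) l) :
    r * (q * p) ∈ Rch w f (a + l) (b + l) := by
  have h1 : q * p ∈ Rch w f a (b + l) := by
    refine Gen_act (P := fun n => Rch w f a n) ?_ ?_ ?_ hp hq
    · rintro n p ⟨g, hg, rfl⟩
      exact ⟨g, hg.mono le_rfl (by omega), rfl⟩
    · rintro n p ⟨g, hg, rfl⟩
      exact ⟨_, hg.mul_x dX_X hw, rfl⟩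
    · rintro n p ⟨g, hg, rfl⟩
      exact ⟨_, hg.mul_f hw, by simp [prev]⟩
  refine Gen_act (P := fun n => Rch w f n (b + l)) ?_ ?_ ?_ h1 hr
  · rintro n p ⟨g, hg, rfl⟩
    exact ⟨g, hg.mono (by omega) le_rfl, rfl⟩
  · rintro n p ⟨g, hg, rfl⟩
    exact ⟨_, hg.mul_d hw, by simp [prev]⟩
  · rintro n p ⟨g, hg, rfl⟩
    refine ⟨_, hg.mul_0 dX_X hw, ?_⟩
    simp only [prev]
    ring

end

end Pool.Agent.Lib.MP_50ed31_mp
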