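import Pool.Agent.Lib.MP_50ed31_mp.Lower

/-!
MP_50ed31_mp, one variable.  The upper bound for the dimension of the spaces of pairs.
-/

open PowerSeries Finset Module
open scoped Nat

namespace Pool.Agent.Lib.MP_50ed31_mp

section pade

variable {K : Type*} [Field K] [CharZero K]

/-- `e^(κ z)` -/
noncomputable def Ex (κ : K) : K⟦X⟧ := PowerSeries.mk fun n => κ ^ n / (n ! : K)

theorem d_Ex (κ : K) : d⁄dX K (Ex κ) = C κ * Ex κ := by
  ext1 n
  rw [coeff_derivative, coeff_C_mul, Ex, coeff_mk, coeff_mk, Nat.factorial_succ]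
  have h1 : (n ! : K) ≠ 0 := by exact_mod_cast Nat.factorial_ne_zero n
  have h2 : ((n : K) + 1) ≠ 0 := by exact_mod_cast Nat.succ_ne_zero n
  push_cast
  field_simp
  ring

/-- the operator `d/dz + κ` -/
noncomputable def Tk (κ : K) (Q : K⟦X⟧) : K⟦X⟧ := d⁄dX K Q + C κ * Q

theorem d_Ex_mul (κ : K) (Q : K⟦X⟧) : d⁄dX K (Ex κ * Q) = Ex κ * Tk κ Q := by
  rw [Derivation.leibniz, smul_eq_mul, smul_eq_mul, d_Ex, Tk]
  ring

theorem iter_Ex_mul (κ : K) (m : ℕ) (Q : K⟦X⟧) :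
    (⇑(d⁄dX K))^[m] (Ex κ * Q) = Ex κ * (Tk κ)^[m] Q := by
  induction m generalizing Q with
  | zero => rfl
  | succ m ih => rw [Function.iterate_succ_apply, d_Ex_mul, ih, Function.iterate_succ_apply]

theorem coeff_iter (a i : ℕ) (p : K⟦X⟧) :
    coeff i ((⇑(d⁄dX K))^[a] p) = ((i + a)! : K) / (i ! : K) * coeff (i + a) p := by
  have hf : ∀ n : ℕ, (n ! : K) ≠ 0 := fun n => by exact_mod_cast Nat.factorial_ne_zero n
  induction a generalizing i with
  | zero =>
    rw [Function.iterate_zero_apply, add_zero, div_self (hf i), one_mul]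
  | succ a ih =>
    rw [Function.iterate_succ_apply', coeff_derivative, ih, show i + 1 + a = i + (a + 1) by ring,
      Nat.factorial_succ i]
    have h1 := hf i
    have h2 : ((i : K) + 1) ≠ 0 := by exact_mod_cast Nat.succ_ne_zero i
    push_cast
    field_simp

theorem Tk_deg (κ : K) {r : ℕ} {Q : K⟦X⟧} (h : ∀ i, r < i → coeff i Q = 0) :
    ∀ i, r < i → coeff i (Tk κ Q) = 0 := by
  intro i hi
  rw [Tk, map_add, coeff_derivative, coeff_C_mul, h i hi, h (i + 1) (by omega)]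
  ring

theorem Tk_inj {κ : K} (hκ : κ ≠ 0) {r : ℕ} {Q : K⟦X⟧} (h : ∀ i, r < i → coeff i Q = 0)
    (h0 : Tk κ Q = 0) : Q = 0 := by
  have key : ∀ i j, r < j + i → coeff j Q = 0 := by
    intro i
    induction i with
    | zero => exact fun j hj => h j (by simpa using hj)
    | succ i ih =>
      intro j hj
      have h1 := ih (j + 1) (by omega)
      have h2 : coeff j (Tk κ Q) = 0 := by rw [h0, map_zero]
      rw [Tk, map_add, coeff_derivative, coeff_C_mul, h1, zero_mul, zero_add] at h2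
      exact (mul_eq_zero.mp h2).resolve_left hκ
  ext1 j
  rw [key (r + 1) j (by omega), map_zero]

theorem iter_Tk_inj {κ : K} (hκ : κ ≠ 0) {r : ℕ} (m : ℕ) : ∀ {Q : K⟦X⟧},
    (∀ i, r < i → coeff i Q = 0) → (Tk κ)^[m] Q = 0 → Q = 0 := by
  induction m with
  | zero => intro Q _ h0; exact h0
  | succ m ih =>
    intro Q h h0
    rw [Function.iterate_succ_apply] at h0
    exact Tk_inj hκ h (ih (Tk_deg κ h) h0)

theorem iter_Tk_deg (κ : K) {r : ℕ} (m : ℕ) : ∀ {Q : K⟦X⟧}, (∀ i, r < i → coeff i Q = 0) →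
    ∀ i, r < i → coeff i ((Tk κ)^[m] Q) = 0 := by
  induction m with
  | zero => intro Q h; exact h
  | succ m ih =>
    intro Q h
    rw [Function.iterate_succ_apply]
    exact ih (Tk_deg κ h)

/-- the Padé approximants of the exponential function -/
theorem pade {κ : K} (hκ : κ ≠ 0) {r : ℕ} {q : ℕ → K} (hq : ∀ j, r < j → q j = 0)
    (h : ∀ l, r < l → l ≤ 2 * r + 1 →
      ∑ j ∈ range (l + 1), κ ^ (l - j) / ((l - j)! : K) * q j = 0) : ∀ j, q j = 0 := by
  have hQ : ∀ i, r < i → coeff i (PowerSeries.mk q) = 0 := fun i hi => by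
    rw [coeff_mk, hq i hi]
  have hc : ∀ l, coeff l (Ex κ * PowerSeries.mk q) =
      ∑ j ∈ range (l + 1), κ ^ (l - j) / ((l - j)! : K) * q j := by
    intro l
    rw [mul_comm, coeff_mul, Finset.Nat.sum_antidiagonal_eq_sum_range_succ_mk]
    refine sum_congr rfl fun j _ => ?_
    rw [Ex, coeff_mk, coeff_mk]
    ring
  have h1 : ∀ i, i < r + 1 → coeff i (Ex κ * (Tk κ)^[r + 1] (PowerSeries.mk q)) = 0 := by
    intro i hi
    rw [← iter_Ex_mul, coeff_iter, hc, h (i + (r + 1)) (by omega) (by omega), mul_zero]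
  have hu : IsUnit (Ex κ) := by
    rw [PowerSeries.isUnit_iff_constantCoeff, ← coeff_zero_eq_constantCoeff_apply, Ex, coeff_mk]
    simp
  have h2 : (Tk κ)^[r + 1] (PowerSeries.mk q) = 0 := by
    have h3 : (X : K⟦X⟧) ^ (r + 1) ∣ (Tk κ)^[r + 1] (PowerSeries.mk q) := by
      have h4 := X_pow_dvd_iff.mpr h1
      exact (hu.dvd_mul_left).mp h4
    ext1 i
    rw [map_zero]
    by_cases hi : i < r + 1
    · exact X_pow_dvd_iff.mp h3 i hi
    · exact iter_Tk_deg κ (r + 1) hQ i (by omega)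
  have h5 := iter_Tk_inj hκ (r + 1) hQ h2
  intro j
  have h6 : coeff j (PowerSeries.mk q) = 0 := by rw [h5, map_zero]
  rwa [coeff_mk] at h6

end pade

section lead

variable {K : Type*} [Field K] [CharZero K]

theorem cq_eq_C (q : ℚ) : cq K⟦X⟧ q = C (q : K) := by
  rw [cq, IsScalarTower.algebraMap_apply ℚ K K⟦X⟧]
  simp

theorem coeff_mul_lead {m : ℕ} (p q : K⟦X⟧) (hp : ∀ i < m, coeff i p = 0) :
    coeff m (q * p) = coeff 0 q * coeff m p := by
  rw [coeff_mul, Finset.Nat.sum_antidiagonal_eq_sum_range_succ_mk, sum_range_succ']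
  rw [sum_eq_zero fun i hi => ?_, zero_add, Nat.sub_zero]
  rw [mem_range] at hi
  rw [hp _ (by omega), mul_zero]

theorem coeff_dX_iter (a i : ℕ) (p : K⟦X⟧) :
    coeff i ((⇑(dX K))^[a] p) = ((i + a)! : K) / (i ! : K) * coeff (i + a) p :=
  coeff_iter a i p

theorem vertex_pow_coeff (f : K⟦X⟧) (s b : ℕ) (hb : b < 3 * s) :
    coeff b (vertex (dX K) f ^ s) = 0 := by
  have h1 : (X : K⟦X⟧⟦X⟧) ^ 3 ∣ vertex (dX K) f := by
    rw [X_pow_dvd_iff]
    intro m hm
    rw [vertex, coeff_mk, if_pos hm]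
  have h2 : (X : K⟦X⟧⟦X⟧) ^ (3 * s) ∣ vertex (dX K) f ^ s := by
    rw [pow_mul]
    exact pow_dvd_pow_of_dvd h1 s
  exact X_pow_dvd_iff.mp h2 b hb

/-- the leading part of the Wick coefficient -/
theorem A_lead (w f p : K⟦X⟧) {n k : ℕ} (hp : ∀ i < n, coeff i p = 0) (hk : 2 * k ≤ n) :
    ((n - 2 * k)! : K) * coeff (n - 2 * k) (A (dX K) w f p k) =
      (-(coeff 0 w) / 2) ^ k / (k ! : K) * ((n ! : K) * coeff n p) := by
  have hf : ∀ n : ℕ, (n ! : K) ≠ 0 := fun n => by exact_mod_cast Nat.factorial_ne_zero n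
  have hD : ∀ a i, i + a < n → coeff i ((⇑(dX K))^[a] p) = 0 := fun a i hi => by
    rw [coeff_dX_iter, hp _ hi, mul_zero]
  -- terms with vertices
  have hs : ∀ s, 1 ≤ s → ∀ i, i < n - 2 * k + 1 →
      coeff i (coeff (2 * (k + s)) (taylor (dX K) p * vertex (dX K) f ^ s)) = 0 := by
    intro s hs i hi
    rw [coeff_mul, map_sum]
    refine sum_eq_zero fun x hx => ?_
    rw [Finset.HasAntidiagonal.mem_antidiagonal] at hx
    by_cases hb : x.2 < 3 * s
    · rw [vertex_pow_coeff f s x.2 hb, mul_zero, map_zero]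
    · have h1 : ∀ i' < n - 2 * k + 1, coeff i' (coeff x.1 (taylor (dX K) p)) = 0 := by
        intro i' hi'
        rw [coeff_taylor, cq_eq_C, coeff_C_mul, hD x.1 i' (by omega), mul_zero]
      have h2 : (X : K⟦X⟧) ^ (n - 2 * k + 1) ∣ coeff x.1 (taylor (dX K) p) := X_pow_dvd_iff.mpr h1
      exact X_pow_dvd_iff.mp (Dvd.dvd.mul_right h2 _) i hi
  rw [A, sum_range_succ', map_add]
  have h1 : coeff (n - 2 * k) (∑ s ∈ range (2 * k), cq K⟦X⟧ ((s + 1)! : ℚ)⁻¹ *
      (gauss w (k + (s + 1)) * coeff (2 * (k + (s + 1)))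
        (taylor (dX K) p * vertex (dX K) f ^ (s + 1)))) = 0 := by
    rw [map_sum]
    refine sum_eq_zero fun s _ => ?_
    have h2 : (X : K⟦X⟧) ^ (n - 2 * k + 1) ∣ coeff (2 * (k + (s + 1)))
        (taylor (dX K) p * vertex (dX K) f ^ (s + 1)) := X_pow_dvd_iff.mpr (hs (s + 1) (by omega))
    exact X_pow_dvd_iff.mp (Dvd.dvd.mul_left (Dvd.dvd.mul_left h2 _) _) _ (by omega)
  rw [h1, zero_add, add_zero, pow_zero, mul_one, coeff_taylor, gauss, cq_eq_C, cq_eq_C, cq_eq_C]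
  have h2 : ∀ (a b c : K) (W P : K⟦X⟧), C a * (C b * W * (C c * P)) = C (a * b * c) * (W * P) := by
    intro a b c W P
    rw [map_mul, map_mul]
    ring
  rw [h2, coeff_C_mul, coeff_mul_lead _ _ fun i hi => hD _ i (by omega), coeff_dX_iter,
    show n - 2 * k + 2 * k = n by omega]
  have h3 : coeff 0 (w ^ k) = coeff 0 w ^ k := by
    rw [coeff_zero_eq_constantCoeff_apply, map_pow, coeff_zero_eq_constantCoeff_apply]
  have h4 : ((2 * k)! : K) = 2 ^ k * (k ! : K) * ((2 * k - 1)‼ : K) := by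
    rcases k with _ | k
    · simp
    · have h5 := Nat.factorial_eq_mul_doubleFactorial (2 * k + 1)
      have h6 := Nat.doubleFactorial_two_mul (k + 1)
      rw [show 2 * k + 1 + 1 = 2 * (k + 1) by ring, h6] at h5
      rw [show 2 * (k + 1) - 1 = 2 * k + 1 by omega]
      exact_mod_cast h5
  have h5 := hf (2 * k)
  have h6 := hf k
  have h7 := hf (n - 2 * k)
  have h8 : ((2 * k - 1)‼ : K) ≠ 0 := fun h => h5 (by rw [h4, h, mul_zero])
  have h9 : (-(coeff 0 w) / 2) ^ k = (-1) ^ k * coeff 0 w ^ k / 2 ^ k := by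
    rw [← mul_pow, ← div_pow]
    congr 1
    ring
  rw [h3, h9]
  push_cast
  rw [h4]
  simp only [Nat.factorial_zero, Nat.cast_one, inv_one]
  field_simp

end lead

end Pool.Agent.Lib.MP_50ed31_mp
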