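import Pool.Agent.Lib.MP_50ed31_mp.Defs

/-!
MP_50ed31_mp, one variable.  The Wick coefficients `A δ w f g k` of the formal Fourier transform of
`g e^(f/ħ)` over a differential ring, and their three basic identities.
-/

open PowerSeries Finset
open scoped Nat

namespace Pool.Agent.Lib.MP_50ed31_mp

variable {R : Type*} [CommRing R] [Algebra ℚ R] (δ : Derivation ℚ R R)

/-! ## Taylor expansions -/

theorem coeff_taylor (p : R) (m : ℕ) :
    coeff m (taylor δ p) = cq R (m ! : ℚ)⁻¹ * (⇑δ)^[m] p := by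
  rw [taylor, coeff_mk]

theorem iter_add (m : ℕ) (p q : R) : (⇑δ)^[m] (p + q) = (⇑δ)^[m] p + (⇑δ)^[m] q := by
  induction m generalizing p q with
  | zero => rfl
  | succ m ih => rw [Function.iterate_succ_apply, map_add, ih]; rfl

theorem taylor_add (p q : R) : taylor δ (p + q) = taylor δ p + taylor δ q := by
  ext1 m
  rw [map_add, coeff_taylor, coeff_taylor, coeff_taylor, iter_add, mul_add]

theorem cq_succ (m : ℕ) : cq R ((m + 1)! : ℚ)⁻¹ * ((m : R) + 1) = cq R (m ! : ℚ)⁻¹ := by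
  have h1 : ((m : R) + 1) = cq R ((m : ℚ) + 1) := by simp [cq]
  rw [h1, cq, cq, cq, ← map_mul, Nat.factorial_succ]
  congr 1
  have h2 : (m : ℚ) + 1 ≠ 0 := by exact_mod_cast Nat.succ_ne_zero m
  have h3 : (m ! : ℚ) ≠ 0 := by exact_mod_cast Nat.factorial_ne_zero m
  push_cast
  field_simp

theorem d_taylor (p : R) : d⁄dX R (taylor δ p) = taylor δ (δ p) := by
  ext1 m
  rw [coeff_derivative, coeff_taylor, coeff_taylor, mul_right_comm, cq_succ,
    Function.iterate_succ_apply]

theorem succ_cancel (m : ℕ) {a b : R} (h : a * ((m : R) + 1) = b * ((m : R) + 1)) : a = b := by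
  have h1 : ((m : R) + 1) * cq R ((m : ℚ) + 1)⁻¹ = 1 := by
    have h1 : ((m : R) + 1) = cq R ((m : ℚ) + 1) := by simp [cq]
    rw [h1, cq, cq, ← map_mul, mul_inv_cancel₀ (by exact_mod_cast Nat.succ_ne_zero m), map_one]
  calc a = a * ((m : R) + 1) * cq R ((m : ℚ) + 1)⁻¹ := by rw [mul_assoc, h1, mul_one]
    _ = b * ((m : R) + 1) * cq R ((m : ℚ) + 1)⁻¹ := by rw [h]
    _ = b := by rw [mul_assoc, h1, mul_one]

theorem taylor_mul (p q : R) : taylor δ (p * q) = taylor δ p * taylor δ q := by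
  have key : ∀ m : ℕ, ∀ p q : R, coeff m (taylor δ (p * q)) = coeff m (taylor δ p * taylor δ q) := by
    intro m
    induction m with
    | zero =>
      intro p q
      rw [coeff_taylor, coeff_zero_eq_constantCoeff_apply, map_mul,
        ← coeff_zero_eq_constantCoeff_apply, ← coeff_zero_eq_constantCoeff_apply, coeff_taylor,
        coeff_taylor]
      simp
    | succ m ih =>
      intro p q
      have h1 : coeff m (d⁄dX R (taylor δ (p * q))) =
          coeff m (d⁄dX R (taylor δ p * taylor δ q)) := by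
        rw [d_taylor, Derivation.leibniz, Derivation.leibniz, d_taylor, d_taylor, smul_eq_mul,
          smul_eq_mul, smul_eq_mul, smul_eq_mul, taylor_add, map_add, map_add, ih, ih]
      rw [coeff_derivative, coeff_derivative] at h1
      exact succ_cancel m h1
  ext1 m
  exact key m p q

/-! ## the coefficientwise derivation -/

/-- `δ` acting on the coefficients of a power series in `u` -/
noncomputable def dc : Derivation ℚ R⟦X⟧ R⟦X⟧ :=
  Derivation.mk'
    { toFun := fun p => PowerSeries.mk fun m => δ (coeff m p)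
      map_add' := fun p q => by ext1 m; simp
      map_smul' := fun c p => by
        have h : ∀ (m : ℕ) (q : R⟦X⟧), coeff m (c • q) = c • coeff m q := fun m q => rfl
        ext1 m
        rw [RingHom.id_apply, coeff_mk, h, h, Derivation.map_smul, coeff_mk] }
    (fun p q => by
      ext1 m
      simp only [LinearMap.coe_mk, AddHom.coe_mk, coeff_mk, smul_eq_mul, map_add, coeff_mul]
      rw [map_sum]
      have h : ∀ x ∈ antidiagonal m, δ (coeff x.1 p * coeff x.2 q) =
          coeff x.1 p * δ (coeff x.2 q) + coeff x.2 q * δ (coeff x.1 p) := fun x _ => by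
        rw [Derivation.leibniz, smul_eq_mul, smul_eq_mul]
      rw [sum_congr rfl h, sum_add_distrib]
      congr 1
      rw [← Finset.sum_equiv (Equiv.prodComm ℕ ℕ) (s := antidiagonal m) (t := antidiagonal m)
        (f := fun x => coeff x.2 q * δ (coeff x.1 p)) (g := fun x => coeff x.1 q * δ (coeff x.2 p))]
      · intro x
        simp [add_comm]
      · intro x _
        simp)

theorem coeff_dc (p : R⟦X⟧) (m : ℕ) : coeff m (dc δ p) = δ (coeff m p) := by
  show coeff m (PowerSeries.mk fun m => δ (coeff m p)) = _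
  rw [coeff_mk]

theorem dcq (q : ℚ) : δ (cq R q) = 0 := by
  rw [cq, Derivation.map_algebraMap]

theorem dc_taylor (p : R) : dc δ (taylor δ p) = taylor δ (δ p) := by
  ext1 m
  rw [coeff_dc, coeff_taylor, coeff_taylor, Derivation.leibniz, dcq, smul_zero, add_zero,
    smul_eq_mul, ← Function.iterate_succ_apply' (⇑δ) m p, Function.iterate_succ_apply]

/-! ## the vertex -/

theorem taylor_eq (f : R) : taylor δ f = C f + C (δ f) * X + C (cq R (1 / 2) * δ (δ f)) * X ^ 2 +
    vertex δ f := by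
  ext1 m
  rw [coeff_taylor, vertex, map_add, map_add, map_add, coeff_mk, coeff_C, coeff_C_mul, coeff_X,
    coeff_C_mul, coeff_X_pow]
  rcases m with _ | _ | _ | m
  · simp
  · simp
  · norm_num
  · have h1 : ¬ (m + 1 + 1 + 1 < 3) := by omega
    have h2 : m + 1 + 1 + 1 ≠ 0 := by omega
    have h3 : m + 1 + 1 + 1 ≠ 1 := by omega
    have h4 : m + 1 + 1 + 1 ≠ 2 := by omega
    rw [if_neg h1, if_neg h2, if_neg h3, if_neg h4]
    simp

/-- `∂_u` of the vertex -/
theorem taylor_d (f : R) : taylor δ (δ f) = C (δ f) + C (δ (δ f)) * X + d⁄dX R (vertex δ f) := by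
  rw [← d_taylor, taylor_eq, map_add, map_add, map_add, derivative_C, Derivation.leibniz,
    Derivation.leibniz, derivative_C, derivative_C, derivative_X, Derivation.leibniz_pow, derivative_X]
  have h : C (cq R (1 / 2) * δ (δ f)) * (2 : R⟦X⟧) = C (δ (δ f)) := by
    have h2 : (2 : R⟦X⟧) = C (cq R 2) := by
      rw [cq, map_ofNat, map_ofNat]
    rw [h2, ← map_mul]
    congr 1
    have h3 : cq R (1 / 2) * cq R 2 = 1 := by
      rw [cq, cq, ← map_mul]; norm_num
    linear_combination (δ (δ f)) * h3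
  simp only [smul_eq_mul, mul_zero, mul_one, zero_add, add_zero, nsmul_eq_mul, Nat.cast_ofNat,
    pow_one, Nat.add_one_sub_one]
  linear_combination X * h

/-- `δ` of the vertex -/
theorem dc_vertex (f : R) : dc δ (vertex δ f) =
    d⁄dX R (vertex δ f) - C (cq R (1 / 2) * δ (δ (δ f))) * X ^ 2 := by
  have h1 := dc_taylor δ f
  have hC : ∀ a : R, dc δ (C a) = C (δ a) := by
    intro a
    ext1 m
    rw [coeff_dc, coeff_C, coeff_C]
    split_ifs <;> simp
  have hX : dc δ (X : R⟦X⟧) = 0 := by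
    ext1 m
    rw [coeff_dc, coeff_X]
    split_ifs <;> simp
  rw [taylor_d, taylor_eq, map_add, map_add, map_add, hC, Derivation.leibniz, Derivation.leibniz,
    hC, hC, hX, Derivation.leibniz_pow, hX, Derivation.leibniz, dcq] at h1
  simp only [smul_eq_mul, mul_zero, zero_add, add_zero, smul_zero] at h1
  linear_combination h1

/-! ## the Gaussian functional -/

section E

variable (w : R)

/-- the coefficient of `ħ^r` of the Gaussian integral of `p` -/
noncomputable def E (r : ℕ) (p : R⟦X⟧) : R := gauss w r * coeff (2 * r) p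

theorem E_add (r : ℕ) (p q : R⟦X⟧) : E w r (p + q) = E w r p + E w r q := by
  unfold E; rw [map_add, mul_add]

theorem E_C_mul (r : ℕ) (a : R) (p : R⟦X⟧) : E w r (C a * p) = a * E w r p := by
  unfold E; rw [coeff_C_mul]; ring

theorem E_nat_mul (r n : ℕ) (p : R⟦X⟧) : E w r ((n : R⟦X⟧) * p) = n * E w r p := by
  have : (n : R⟦X⟧) = C (n : R) := by simp
  rw [this, E_C_mul]

theorem gauss_succ (r : ℕ) : gauss w (r + 1) = -(2 * (r : R) + 1) * w * gauss w r := by
  have h : cq R ((-1) ^ (r + 1) * ((2 * (r + 1) - 1)‼ : ℕ)) =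
      -(2 * (r : R) + 1) * cq R ((-1) ^ r * ((2 * r - 1)‼ : ℕ)) := by
    have h1 : -(2 * (r : R) + 1) = cq R (-(2 * (r : ℚ) + 1)) := by
      rw [cq, map_neg, map_add, map_mul, map_ofNat, map_natCast, map_one]
    rw [h1, cq, cq, cq, ← map_mul]
    congr 1
    have h2 : (2 * (r + 1) - 1)‼ = (2 * r + 1) * (2 * r - 1)‼ := by
      rcases r with _ | r
      · simp
      · rw [show 2 * (r + 1 + 1) - 1 = (2 * r + 1) + 2 by omega, Nat.doubleFactorial_add_two,
          show 2 * (r + 1) - 1 = 2 * r + 1 by omega]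
        ring
    rw [h2]
    push_cast
    ring
  unfold gauss
  rw [h]
  ring

/-- integration by parts -/
theorem E_X (r : ℕ) (p : R⟦X⟧) : E w (r + 1) (X * p) = -w * E w r (d⁄dX R p) := by
  unfold E
  rw [gauss_succ, show 2 * (r + 1) = (2 * r + 1) + 1 by ring, coeff_succ_X_mul, coeff_derivative]
  push_cast
  ring

theorem E_Xd (r : ℕ) (p : R⟦X⟧) : E w r (X * d⁄dX R p) = 2 * r * E w r p := by
  unfold E
  rcases r with _ | r
  · simp
  · rw [show 2 * (r + 1) = (2 * r + 1) + 1 by ring, coeff_succ_X_mul, coeff_derivative]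
    push_cast
    ring

theorem E_X2 (r : ℕ) (p : R⟦X⟧) : E w (r + 1) (X ^ 2 * p) = -w * ((2 * r + 1) * E w r p) := by
  rw [pow_two, mul_assoc, E_X, Derivation.leibniz, derivative_X, smul_eq_mul, smul_eq_mul, mul_one,
    E_add, E_Xd]
  ring

theorem d_E {h3 : R} (hw : δ w = -(w ^ 2 * h3)) (r : ℕ) (p : R⟦X⟧) :
    δ (E w r p) = -(r * (w * h3)) * E w r p + E w r (dc δ p) := by
  unfold E
  rw [Derivation.leibniz, ← coeff_dc]
  have h : δ (gauss w r) = -(r * (w * h3)) * gauss w r := by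
    unfold gauss
    rw [Derivation.leibniz, dcq, smul_zero, add_zero, Derivation.leibniz_pow, hw, smul_eq_mul,
      smul_eq_mul, nsmul_eq_mul]
    rcases r with _ | r
    · simp
    · rw [Nat.add_one_sub_one]
      ring
  rw [h, smul_eq_mul, smul_eq_mul]
  ring

/-! ## the sum over the number of vertices -/

variable (f : R)

/-- `∑_s E_(k+s)(p V^s) / s!` over `s < n` -/
noncomputable def Wn (n k : ℕ) (p : R⟦X⟧) : R :=
  ∑ s ∈ range n, cq R (s ! : ℚ)⁻¹ * E w (k + s) (p * vertex δ f ^ s)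

/-- the full sum -/
noncomputable def W (k : ℕ) (p : R⟦X⟧) : R := Wn δ w f (2 * k + 1) k p

theorem X3_dvd_vertex : (X : R⟦X⟧) ^ 3 ∣ vertex δ f := by
  rw [X_pow_dvd_iff]
  intro m hm
  rw [vertex, coeff_mk, if_pos hm]

theorem E_vertex_zero {k s : ℕ} (hs : 2 * k < s) (p : R⟦X⟧) :
    E w (k + s) (p * vertex δ f ^ s) = 0 := by
  unfold E
  have h1 : (X : R⟦X⟧) ^ (3 * s) ∣ p * vertex δ f ^ s := by
    rw [pow_mul]
    exact Dvd.dvd.mul_left (pow_dvd_pow_of_dvd (X3_dvd_vertex δ f) s) p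
  rw [X_pow_dvd_iff.mp h1 (2 * (k + s)) (by omega), mul_zero]

theorem Wn_eq {n k : ℕ} (hn : 2 * k + 1 ≤ n) (p : R⟦X⟧) : Wn δ w f n k p = W δ w f k p := by
  unfold W Wn
  symm
  apply Finset.sum_subset
  · intro s hs
    rw [mem_range] at hs ⊢
    omega
  · intro s _ hs
    rw [mem_range] at hs
    rw [E_vertex_zero δ w f (by omega), mul_zero]

theorem W_add (k : ℕ) (p q : R⟦X⟧) : W δ w f k (p + q) = W δ w f k p + W δ w f k q := by
  unfold W Wn
  rw [← sum_add_distrib]
  refine sum_congr rfl fun s _ => ?_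
  rw [add_mul, E_add, mul_add]

theorem W_C_mul (k : ℕ) (a : R) (p : R⟦X⟧) : W δ w f k (C a * p) = a * W δ w f k p := by
  unfold W Wn
  rw [mul_sum]
  refine sum_congr rfl fun s _ => ?_
  rw [mul_assoc, E_C_mul]
  ring

/-- the shift `s → s + 1` in the sum over the vertices -/
theorem sum_shift (n : ℕ) (a : ℕ → R) :
    ∑ s ∈ range (n + 1), cq R (s ! : ℚ)⁻¹ * ((s : R) * a s) =
      ∑ s ∈ range n, cq R (s ! : ℚ)⁻¹ * a (s + 1) := by
  rw [sum_range_succ', Nat.cast_zero, zero_mul, mul_zero, add_zero]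
  refine sum_congr rfl fun s _ => ?_
  rw [← cq_succ (R := R) s]
  push_cast
  ring

theorem W_V (k : ℕ) (p : R⟦X⟧) (n : ℕ) (hn : 2 * (k + 1) + 1 ≤ n) :
    ∑ s ∈ range (n + 1), cq R (s ! : ℚ)⁻¹ * ((s : R) * E w (k + s) (p * vertex δ f ^ s)) =
      W δ w f (k + 1) (p * vertex δ f) := by
  rw [sum_shift, ← Wn_eq δ w f hn]
  unfold Wn
  refine sum_congr rfl fun s _ => ?_
  rw [pow_succ', ← mul_assoc, show k + (s + 1) = k + 1 + s by ring]

/-- the derivative of the `s`-th power of the vertex -/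
theorem W_dV (D : Derivation ℚ R⟦X⟧ R⟦X⟧ ) (k : ℕ) (p : R⟦X⟧) (n : ℕ) (hn : 2 * (k + 1) + 1 ≤ n) :
    ∑ s ∈ range (n + 1), cq R (s ! : ℚ)⁻¹ * E w (k + s) (D (p * vertex δ f ^ s)) =
      W δ w f k (D p) + W δ w f (k + 1) (p * D (vertex δ f)) := by
  rw [← Wn_eq δ w f (k := k) (n := n + 1) (by omega), ← Wn_eq δ w f (k := k + 1) (n := n) hn]
  unfold Wn
  have h1 : ∀ s ∈ range (n + 1), cq R (s ! : ℚ)⁻¹ * E w (k + s) (D (p * vertex δ f ^ s)) =
      cq R (s ! : ℚ)⁻¹ * E w (k + s) (D p * vertex δ f ^ s) +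
      cq R (s ! : ℚ)⁻¹ * ((s : R) * E w (k + s) (p * D (vertex δ f) * vertex δ f ^ (s - 1))) := by
    intro s _
    rw [Derivation.leibniz, Derivation.leibniz_pow, ← mul_add]
    congr 1
    rw [← E_nat_mul, ← E_add]
    congr 1
    simp only [smul_eq_mul, nsmul_eq_mul]
    ring
  rw [sum_congr rfl h1, sum_add_distrib,
    sum_shift n fun s => E w (k + s) (p * D (vertex δ f) * vertex δ f ^ (s - 1))]
  congr 1
  refine sum_congr rfl fun s _ => ?_
  rw [Nat.add_sub_cancel, show k + (s + 1) = k + 1 + s by ring]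

/-- the derivation `∂_u` over `ℚ` -/
noncomputable def du : Derivation ℚ R⟦X⟧ R⟦X⟧ := (d⁄dX R).restrictScalars ℚ

theorem du_apply (p : R⟦X⟧) : du p = d⁄dX R p := rfl

/-- integration by parts for the full sum -/
theorem W_X (k : ℕ) (p : R⟦X⟧) : W δ w f (k + 1) (X * p) =
    -w * (W δ w f k (d⁄dX R p) + W δ w f (k + 1) (p * d⁄dX R (vertex δ f))) := by
  rw [← du_apply, ← du_apply, ← W_dV δ w f du k p (2 * k + 3) (by omega),
    ← Wn_eq δ w f (n := 2 * k + 3 + 1) (by omega)]
  unfold Wn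
  rw [mul_sum]
  refine sum_congr rfl fun s _ => ?_
  rw [show k + 1 + s = (k + s) + 1 by ring, mul_assoc, E_X, du_apply]
  ring

theorem W_X2 (k : ℕ) (p : R⟦X⟧) : W δ w f (k + 1) (X ^ 2 * p) =
    -w * ((2 * k + 1) * W δ w f k p + 2 * W δ w f (k + 1) (p * vertex δ f)) := by
  rw [← W_V δ w f k p (2 * k + 3) (by omega), ← Wn_eq δ w f (n := 2 * k + 3 + 1) (by omega),
    ← Wn_eq δ w f (k := k) (n := 2 * k + 3 + 1) (by omega)]
  unfold Wn
  rw [mul_sum, mul_sum, ← sum_add_distrib, mul_sum]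
  refine sum_congr rfl fun s _ => ?_
  rw [show k + 1 + s = (k + s) + 1 by ring, mul_assoc, E_X2]
  push_cast
  ring

theorem d_W {h3 : R} (hw : δ w = -(w ^ 2 * h3)) (k : ℕ) (p : R⟦X⟧) :
    δ (W δ w f k p) = -(w * h3) * (k * W δ w f k p + W δ w f (k + 1) (p * vertex δ f)) +
      W δ w f k (dc δ p) + W δ w f (k + 1) (p * dc δ (vertex δ f)) := by
  rw [add_assoc, ← W_dV δ w f (dc δ) k p (2 * k + 3) (by omega),
    ← W_V δ w f k p (2 * k + 3) (by omega), ← Wn_eq δ w f (k := k) (n := 2 * k + 3 + 1) (by omega)]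
  unfold Wn
  rw [map_sum, mul_sum, ← sum_add_distrib, mul_sum, ← sum_add_distrib]
  refine sum_congr rfl fun s _ => ?_
  rw [Derivation.leibniz, dcq, smul_zero, add_zero, smul_eq_mul, d_E δ w hw]
  push_cast
  ring

theorem d_W_taylor {h3 : R} (hw : δ w = -(w ^ 2 * h3)) (hf : δ (δ (δ f)) = h3) (k : ℕ) (g : R) :
    δ (W δ w f k (taylor δ g)) = cq R (1 / 2) * w * h3 * W δ w f k (taylor δ g) +
      (W δ w f k (d⁄dX R (taylor δ g)) +
        W δ w f (k + 1) (taylor δ g * d⁄dX R (vertex δ f))) := by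
  have h2 : cq R (1 / 2) * 2 = 1 := by
    have : (2 : R) = cq R 2 := by rw [cq, map_ofNat]
    rw [this, cq, cq, ← map_mul]; norm_num
  rw [d_W δ w f hw, dc_vertex, hf, dc_taylor, ← d_taylor]
  have h1 : taylor δ g * (d⁄dX R (vertex δ f) - C (cq R (1 / 2) * h3) * X ^ 2) =
      taylor δ g * d⁄dX R (vertex δ f) + C (-(cq R (1 / 2) * h3)) * (X ^ 2 * taylor δ g) := by
    rw [map_neg]
    ring
  rw [h1, W_add, W_C_mul, W_X2]
  linear_combination (h3 * w * (k * W δ w f k (taylor δ g) +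
    W δ w f (k + 1) (taylor δ g * vertex δ f))) * h2

/-! ## the three identities -/

theorem A_eq (g : R) (k : ℕ) : A δ w f g k = W δ w f k (taylor δ g) := rfl

theorem A_zero (g : R) : A δ w f g 0 = g := by
  unfold A
  simp [gauss, coeff_taylor]

/-- the `y`-derivative of a function of the stationary point, conjugated with the square root of the
Hessian -/
noncomputable def Dy (p : R) : R := -w * (δ p - cq R (1 / 2) * w * δ (δ (δ f)) * p)

variable {δ w f}

theorem W_X_taylor (hw : w * δ (δ f) = 1) (g : R) (k : ℕ) :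
    W δ w f (k + 1) (X * taylor δ g) = Dy δ w f (A δ w f g k) := by
  have hw' : δ w = -(w ^ 2 * δ (δ (δ f))) := by
    have h := congrArg δ hw
    rw [Derivation.leibniz, Derivation.map_one_eq_zero, smul_eq_mul, smul_eq_mul] at h
    linear_combination w * h - δ w * hw
  rw [W_X, Dy, A_eq, d_W_taylor δ w f hw' rfl]
  ring

theorem taylor_x {x : R} (hx : δ x = 1) : taylor δ x = C x + X := by
  have h : ∀ m : ℕ, (⇑δ)^[m] (0 : R) = 0 := by
    intro m
    induction m with
    | zero => rfl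
    | succ m ih => rw [Function.iterate_succ_apply, map_zero, ih]
  ext1 m
  rw [coeff_taylor, map_add, coeff_C, coeff_X]
  rcases m with _ | _ | m
  · simp
  · simp [hx]
  · have h2 : m + 1 + 1 ≠ 0 := by omega
    have h3 : m + 1 + 1 ≠ 1 := by omega
    rw [if_neg h2, if_neg h3, Function.iterate_succ_apply, hx, Function.iterate_succ_apply,
      Derivation.map_one_eq_zero, h]
    simp

theorem half_two : cq R (1 / 2) * 2 = 1 := by
  have : (2 : R) = cq R 2 := by rw [cq, map_ofNat]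
  rw [this, cq, cq, ← map_mul]; norm_num

/-- multiplication by `x` -/
theorem A_x {x : R} (hx : δ x = 1) (hw : w * δ (δ f) = 1) (g : R) (k : ℕ) :
    A δ w f (x * g) (k + 1) = x * A δ w f g (k + 1) + Dy δ w f (A δ w f g k) := by
  rw [A_eq, taylor_mul, taylor_x hx, add_mul, W_add, W_C_mul, W_X_taylor hw, ← A_eq]

/-- multiplication by `y` -/
theorem A_d (hw : w * δ (δ f) = 1) (g : R) (k : ℕ) :
    A δ w f (δ f * g) (k + 1) + A δ w f (δ g) k = δ f * A δ w f g (k + 1) := by
  rw [A_eq, taylor_mul, taylor_d, add_mul, add_mul, W_add, W_add, W_C_mul, mul_assoc, W_C_mul, W_X,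
    ← A_eq, A_eq (g := δ g), ← d_taylor, mul_comm (d⁄dX R (vertex δ f)) (taylor δ g)]
  linear_combination (-(W δ w f k (d⁄dX R (taylor δ g)) +
    W δ w f (k + 1) (taylor δ g * d⁄dX R (vertex δ f)))) * hw

/-- multiplication by `f` -/
theorem A_f (hw : w * δ (δ f) = 1) (g : R) (k : ℕ) :
    A δ w f (f * g) (k + 1) = f * A δ w f g (k + 1) + δ f * Dy δ w f (A δ w f g k) -
      (k + cq R (1 / 2)) * A δ w f g k := by
  rw [A_eq, taylor_mul, taylor_eq, add_mul, add_mul, add_mul, W_add, W_add, W_add, W_C_mul,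
    mul_assoc, W_C_mul, W_X_taylor hw, mul_assoc, W_C_mul, W_X2, ← A_eq, ← A_eq,
    mul_comm (vertex δ f) (taylor δ g)]
  linear_combination (-(cq R (1 / 2)) * ((2 * k + 1) * A δ w f g k +
    2 * W δ w f (k + 1) (taylor δ g * vertex δ f))) * hw - (k * A δ w f g k +
    W δ w f (k + 1) (taylor δ g * vertex δ f)) * half_two (R := R)

theorem A_add (g₁ g₂ : R) (k : ℕ) : A δ w f (g₁ + g₂) k = A δ w f g₁ k + A δ w f g₂ k := by
  rw [A_eq, A_eq, A_eq, taylor_add, W_add]

end E

end Pool.Agent.Lib.MP_50ed31_mp
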